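import Mathlib

/-!
# The rates in dimension two
-/

namespace Pool.Agent.Helper53.TG

/-- `idx k = ⌊(2k+1)/3⌋`. -/
def idx (k : ℕ) : ℕ := (2 * k + 1) / 3

/-- `rateTwo k = 3 J (J + 1) / (2 (3 J - k + 1))`, where `J = idx k = ⌊(2k+1)/3⌋`. -/
noncomputable def rateTwo (k : ℕ) : ℝ :=
  3 * (idx k : ℝ) * (idx k + 1) / (2 * (3 * idx k - k + 1))

end Pool.Agent.Helper53.TG
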