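import Pool.Agent.Helper53.TG.Plane
import Pool.Agent.Helper53.TG.Rate

/-!
# The exact rates for `d = 2` and the increment inequality
-/

namespace Pool.Agent.Helper53.TG

open Finset

lemma sum_wt {K : ℕ} (c : ℕ → ℝ) :
    ∑ a ∈ range (K + 1), ((K : ℝ) + 1 - a) * c a = ∑ u ∈ range (K + 1), PS c (u + 1) := by
  have h := swap_sum (K := K) c (fun _ => 1)
  have h1 : ∑ a ∈ range (K + 1), c a * ∑ p ∈ range (K - a + 1), (1 : ℝ) =
      ∑ a ∈ range (K + 1), ((K : ℝ) + 1 - a) * c a := by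
    apply sum_congr rfl
    intro a ha
    rw [mem_range] at ha
    rw [sum_const, card_range, nsmul_eq_mul, mul_one]
    have : ((K - a + 1 : ℕ) : ℝ) = (K : ℝ) + 1 - a := by
      rw [Nat.cast_add, Nat.cast_sub (by omega)]; push_cast; ring
    rw [this]; ring
  rw [← h1, h, ← sum_range_reflect]
  apply sum_congr rfl
  intro p hp
  rw [mem_range] at hp
  rw [one_mul]
  congr 1
  omega

/-- lower bound, `k ≥ 1`. -/
theorem lower_two {n k : ℕ} (hn : 1 ≤ n) (hk : 1 ≤ k) : rateTwo k * n ≤ (f n 2 k : ℝ) := by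
  obtain ⟨N, rfl⟩ : ∃ N, n = N + 1 := ⟨n - 1, by omega⟩
  obtain ⟨K, rfl⟩ : ∃ K, k = K + 1 := ⟨k - 1, by omega⟩
  obtain ⟨H, hH, hcard⟩ := exists_cover (d := 2) (n := N + 1) (k := K + 1) (by norm_num) hn
  rw [← hcard]
  rcases Nat.eq_zero_or_pos K with hK | hK
  · -- k = 1
    subst hK
    set c : ℕ → ℝ := fun a => if a = 0 then 1 / 3 else 0 with hc
    have hc0 : ∀ a, 0 ≤ c a := by intro a; rw [hc]; simp only; split_ifs <;> norm_num
    have hPS : ∀ u, PS c u ≤ 1 / 3 := by
      intro u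
      unfold PS
      rw [hc, sum_ite_eq']
      split_ifs <;> norm_num
    have hPS1 : PS c 1 = 1 / 3 := by
      unfold PS; rw [sum_range_one]; rw [hc]; simp
    have main := plane_bound (N := N) (K := 0) hH hc0 ?_ ?_ ?_
    · have e : ∑ a ∈ range (0 + 1), (((0 : ℕ) : ℝ) + 1 - a) * c a = 1 / 3 := by
        simp [hc]
      rw [e] at main
      have : rateTwo (0 + 1) = 1 := by
        have : idx (0 + 1) = 1 := by decide
        unfold rateTwo
        rw [this]; norm_num
      rw [this]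
      push_cast at main ⊢
      linarith
    · intro a ha
      have ha0 : a = 0 := by omega
      subst ha0
      have h1 : c 0 = 1 / 3 := by rw [hc]; simp
      rw [h1]
      have := hPS (0 + 1 - 0)
      push_cast
      linarith
    · have := hPS (0 + 1); linarith
    · intro u v _
      have h1 := hPS u
      have h2 := hPS v
      have h3 := hPS (0 + 1)
      linarith
  · set J := idx (K + 1) with hJ
    have hk2 : 2 ≤ K + 1 := by omega
    have h1 : 3 * J ≤ 2 * (K + 1) + 1 := by rw [hJ]; unfold idx; omega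
    have h2 : 2 * (K + 1) + 1 ≤ 3 * J + 2 := by rw [hJ]; unfold idx; omega
    have main := plane_bound (N := N) (K := K) hH (c := wt (K + 1) J)
      (wt_nonneg hk2 h1 h2) ?_ ?_ ?_
    · have e : ∑ a ∈ range (K + 1), ((K : ℝ) + 1 - a) * wt (K + 1) J a =
          ((J : ℝ) * (J + 1)) / (2 * (3 * J - (K + 1 : ℕ) + 1)) := by
        rw [sum_wt, ← sum_FF hk2 h1 h2]
        rw [sum_range_succ' (fun u => FF (K + 1) J u)]
        have h0 : FF (K + 1) J 0 = 0 := by unfold FF; simp
        rw [h0, add_zero]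
        apply sum_congr rfl
        intro u _
        rw [PS_wt]
      rw [e] at main
      refine le_trans (le_of_eq ?_) main
      unfold rateTwo
      rw [← hJ]
      push_cast
      ring
    · intro a ha
      have := cond_A hk2 h1 h2 a (by omega)
      rw [PS_wt]
      push_cast at this
      exact this
    · rw [PS_wt]
      have := FF_le_half hk2 h1 h2 (K + 1)
      linarith
    · intro u v huv
      rw [PS_wt, PS_wt, PS_wt]
      exact cond_B hk2 h1 h2 u v (by omega)

/-- upper bound, `k ≥ 1`. -/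
theorem upper_two {n k : ℕ} (hn : 1 ≤ n) (hk : 1 ≤ k) :
    (f n 2 k : ℝ) ≤ rateTwo k * n + 3 * idx k := by
  have h1 : 3 * idx k ≤ 2 * k + 1 := by unfold idx; omega
  have h2 : 2 * k + 1 ≤ 3 * idx k + 2 := by unfold idx; omega
  have hQ : 1 ≤ 3 * idx k + 1 - k := by omega
  have h := upper (d := 2) (n := n) (k := k) (J := idx k) (Q := 3 * idx k + 1 - k)
    (by norm_num) hn hQ (by omega)
  refine h.trans (le_of_eq ?_)
  unfold rateTwo
  rw [Nat.cast_sub (by omega)]
  push_cast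
  have hpos : (0 : ℝ) < 3 * (idx k : ℝ) - k + 1 := by
    have : k < 3 * idx k + 1 := by omega
    have : (k : ℝ) < 3 * (idx k : ℝ) + 1 := by exact_mod_cast this
    linarith
  have e : (3 * (idx k : ℝ) + 1 - k) = 3 * (idx k : ℝ) - k + 1 := by ring
  rw [e]
  ring

theorem isRate_two {k : ℕ} (hk : 1 ≤ k) : IsRate 2 k (rateTwo k) := by
  refine ⟨3 * idx k, ?_⟩
  intro n hn
  have h1 := lower_two hn hk
  have h2 := upper_two hn hk
  rw [abs_le]
  constructor
  · have : (0 : ℝ) ≤ 3 * (idx k : ℝ) := by positivity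
    linarith
  · linarith

/-- the rate is unique. -/
lemma rate_unique {d k : ℕ} {C C' : ℝ} (h : IsRate d k C) (h' : IsRate d k C') : C = C' := by
  obtain ⟨B, hB⟩ := h
  obtain ⟨B', hB'⟩ := h'
  by_contra hne
  have hpos : 0 < |C - C'| := abs_pos.2 (sub_ne_zero.2 hne)
  obtain ⟨n, hn⟩ := exists_nat_gt ((B + B') / |C - C'|)
  have h1 := hB (n + 1) (by omega)
  have h2 := hB' (n + 1) (by omega)
  have h3 : |C - C'| * ((n + 1 : ℕ) : ℝ) ≤ B + B' := by
    have : (C - C') * ((n + 1 : ℕ) : ℝ) =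
        ((f (n + 1) d k : ℝ) - C' * ((n + 1 : ℕ) : ℝ)) -
        ((f (n + 1) d k : ℝ) - C * ((n + 1 : ℕ) : ℝ)) := by ring
    have h4 : |C - C'| * ((n + 1 : ℕ) : ℝ) = |(C - C') * ((n + 1 : ℕ) : ℝ)| := by
      rw [abs_mul, abs_of_nonneg (a := ((n + 1 : ℕ) : ℝ)) (by positivity)]
    rw [h4, this]
    exact (abs_sub _ _).trans (by linarith)
  rw [div_lt_iff₀ hpos] at hn
  push_cast at h3
  nlinarith

theorem increment_two {k : ℕ} (hk : 1 ≤ k) : rateTwo k + 2 ≤ rateTwo (k + 3) := by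
  have hJ : idx (k + 3) = idx k + 2 := by unfold idx; omega
  unfold rateTwo
  rw [hJ]
  have h1 : 3 * idx k ≤ 2 * k + 1 := by unfold idx; omega
  have h2 : 2 * k + 1 ≤ 3 * idx k + 2 := by unfold idx; omega
  set J := idx k
  have h1' : (3 : ℝ) * J ≤ 2 * k + 1 := by exact_mod_cast h1
  have h2' : (2 : ℝ) * k + 1 ≤ 3 * J + 2 := by exact_mod_cast h2
  have hJ0 : (0 : ℝ) ≤ J := by positivity
  have hJ1 : (1 : ℝ) ≤ J := by
    have : 1 ≤ J := by omega
    exact_mod_cast this
  have p1 : (0 : ℝ) < 3 * (J : ℝ) - k + 1 := by linarith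
  push_cast
  have p2 : (0 : ℝ) < 3 * ((J : ℝ) + 2) - (k + 3) + 1 := by linarith
  rw [← sub_nonneg]
  have key : 3 * ((J : ℝ) + 2) * (J + 2 + 1) / (2 * (3 * (J + 2) - (k + 3) + 1)) -
      (3 * (J : ℝ) * (J + 1) / (2 * (3 * J - k + 1)) + 2) =
      ((2 * (k : ℝ) + 1 - 3 * J) * (3 * J + 3 - (2 * k + 1))) /
        ((3 * (J + 2) - (k + 3) + 1) * (3 * J - k + 1) * 2) := by
    field_simp
    ring
  rw [key]
  apply div_nonneg _ (by positivity)
  nlinarith

end Pool.Agent.Helper53.TG
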