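import Mathlib

/-!
# Abstract counting theorem for `d = 2`

Points of the triangular grid are written in barycentric form: triples of natural numbers with
sum `N` (`N = n - 1`).
-/

namespace Pool.Agent.Helper53.TG

open Finset

/-- Partial sums. -/
def PS (c : ℕ → ℝ) (u : ℕ) : ℝ := ∑ a ∈ range u, c a

lemma PS_mono {c : ℕ → ℝ} (hc : ∀ a, 0 ≤ c a) {u v : ℕ} (h : u ≤ v) : PS c u ≤ PS c v := by
  unfold PS
  exact sum_le_sum_of_subset_of_nonneg (range_subset_range.2 h) (fun _ _ _ => hc _)

/-- The number of `j < n` with `m j ≤ a`. -/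
def cntB (n : ℕ) (m : ℕ → ℕ) (a : ℕ) : ℕ := ((range n).filter (fun j => m j ≤ a)).card

lemma cntB_le (n : ℕ) (m : ℕ → ℕ) (a : ℕ) : cntB n m a ≤ n := by
  unfold cntB; exact (card_filter_le _ _).trans (by simp)

/-- the basic count on the line `x_0 = b`. -/
lemma count_line (n b : ℕ) (m0 m1 m2 : ℕ → ℕ) (a p q : ℕ) (hb : ∀ j < b, a < m0 j) (hbn : b < n) :
    cntB n m0 a + cntB n m1 p + cntB n m2 q ≤
      ((range (n - b)).filter (fun y => m1 y ≤ p ∧ m2 (n - 1 - b - y) ≤ q)).card + 2 * n := by
  have h0 : cntB n m0 a ≤ n - b := by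
    unfold cntB
    have hsub : (range n).filter (fun j => m0 j ≤ a) ⊆ Ico b n := by
      intro j hj
      rw [mem_filter, mem_range] at hj
      rw [mem_Ico]
      refine ⟨?_, hj.1⟩
      by_contra hlt
      push Not at hlt
      have := hb j hlt
      omega
    exact (card_le_card hsub).trans (by simp)
  have key : ∀ (m : ℕ → ℕ) (r : ℕ), cntB n m r ≤
      ((range (n - b)).filter (fun y => m y ≤ r)).card + b := by
    intro m r
    unfold cntB
    have hsub : (range n).filter (fun j => m j ≤ r) ⊆
        (range (n - b)).filter (fun y => m y ≤ r) ∪ Ico (n - b) n := by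
      intro j hj
      rw [mem_filter, mem_range] at hj
      rw [mem_union, mem_filter, mem_range, mem_Ico]
      by_cases h : j < n - b
      · exact Or.inl ⟨h, hj.2⟩
      · exact Or.inr ⟨by omega, hj.1⟩
    refine (card_le_card hsub).trans ((card_union_le _ _).trans ?_)
    have : (Ico (n - b) n).card = b := by simp; omega
    omega
  have h1 := key m1 p
  have h2 := key m2 q
  have hrefl : ((range (n - b)).filter (fun y => m2 y ≤ q)).card =
      ((range (n - b)).filter (fun y => m2 (n - 1 - b - y) ≤ q)).card := by
    apply card_bij' (fun y _ => n - 1 - b - y) (fun y _ => n - 1 - b - y)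
    · intro y hy
      rw [mem_filter, mem_range] at hy ⊢
      refine ⟨by omega, ?_⟩
      have : n - 1 - b - (n - 1 - b - y) = y := by omega
      rw [this]; exact hy.2
    · intro y hy
      rw [mem_filter, mem_range] at hy ⊢
      exact ⟨by omega, hy.2⟩
    · intro y hy
      rw [mem_filter, mem_range] at hy
      omega
    · intro y hy
      rw [mem_filter, mem_range] at hy
      omega
  have hinter : ((range (n - b)).filter (fun y => m1 y ≤ p)).card +
      ((range (n - b)).filter (fun y => m2 (n - 1 - b - y) ≤ q)).card ≤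
      ((range (n - b)).filter (fun y => m1 y ≤ p ∧ m2 (n - 1 - b - y) ≤ q)).card + (n - b) := by
    rw [← card_union_add_card_inter, filter_and, add_comm]
    apply Nat.add_le_add_left
    refine (card_le_card (union_subset (filter_subset _ _) (filter_subset _ _))).trans (by simp)
  omega

/-- number of `p ≤ r` with `u ≤ p` and `v ≤ r - p`. -/
lemma count_split (r u v : ℕ) :
    ((range (r + 1)).filter (fun p => u ≤ p ∧ v ≤ r - p)).card = r + 1 - u - v := by
  by_cases h : u + v ≤ r
  · have : (range (r + 1)).filter (fun p => u ≤ p ∧ v ≤ r - p) = Ico u (r + 1 - v) := by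
      ext p
      rw [mem_filter, mem_range, mem_Ico]
      omega
    rw [this]; simp; omega
  · have : (range (r + 1)).filter (fun p => u ≤ p ∧ v ≤ r - p) = ∅ := by
      ext p
      rw [mem_filter, mem_range]
      simp only [notMem_empty, iff_false]
      omega
    rw [this]; simp; omega

end Pool.Agent.Helper53.TG
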