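import Pool.Agent.Helper53.TG.AbsTwo

/-!
# The abstract lower bound
-/

namespace Pool.Agent.Helper53.TG

open Finset

variable {N K : ℕ} {m : Fin 3 → ℕ → ℕ} (hz : ∀ i, ∃ j, m i j = 0)

include hz in
/-- The crossing `(i,a)`: the generic lines pick up at least the total number of defects. -/
lemma sum_om_ge {ι : Type*} (R : Finset ι) (P : ι → (Fin 3 → ℕ) → Prop)
    (hcov : ∀ x : Fin 3 → ℕ, x 0 + x 1 + x 2 = N →
      ∃ S : Finset ι, S ⊆ R ∧ (∀ e ∈ S, P e x) ∧ K + 1 ≤ ms m x + S.card)
    (i : Fin 3) (a : ℕ) :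
    ((∑ y ∈ range (N + 1 - fb m i a), cn K m i a (pt N i (fb m i a) y) : ℕ) : ℝ) ≤
      ∑ e ∈ R, om N K m (P e) i a := by
  classical
  unfold om
  rw [sum_comm, Nat.cast_sum]
  apply sum_le_sum
  intro y hy
  rw [mem_range] at hy
  set x := pt N i (fb m i a) y with hx
  have hsum : x 0 + x 1 + x 2 = N := pt_sum N i _ y (by omega)
  obtain ⟨S, hSR, hSP, hS⟩ := hcov x hsum
  have hmi : m i (x i) ≤ a := by rw [hx, pt_i]; exact fb_spec m hz i a
  have hdS : df K m x ≤ S.card := by unfold df; omega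
  have hcd := cn_le K m i a x hmi
  calc (cn K m i a x : ℝ) ≤ ∑ e ∈ S, (cn K m i a x : ℝ) / (df K m x : ℝ) := by
        rw [sum_const, nsmul_eq_mul]
        by_cases h0 : df K m x = 0
        · have : cn K m i a x = 0 := by omega
          rw [this]; simp
        · have hpos : (0 : ℝ) < df K m x := by exact_mod_cast Nat.pos_of_ne_zero h0
          rw [mul_div_assoc', le_div_iff₀ hpos, mul_comm]
          apply mul_le_mul_of_nonneg_right _ (by positivity)
          exact_mod_cast hdS
    _ = ∑ e ∈ S, if P e x then (cn K m i a x : ℝ) / (df K m x : ℝ) else 0 := by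
        apply sum_congr rfl
        intro e he
        rw [if_pos (hSP e he)]
    _ ≤ ∑ e ∈ R, if P e x then (cn K m i a x : ℝ) / (df K m x : ℝ) else 0 := by
        apply sum_le_sum_of_subset_of_nonneg hSR
        intro e _ _
        split_ifs
        · positivity
        · exact le_rfl

/-- number of defects on the crossing line. -/
lemma sum_cn_ge (i : Fin 3) (a : ℕ) (ha : a ≤ K) :
    ∑ p ∈ range (K - a + 1),
      ((cntB (N + 1) (m i) a : ℝ) + cntB (N + 1) (m (i + 1)) p + cntB (N + 1) (m (i + 2)) (K - a - p)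
        - 2 * (N + 1)) ≤
      ((∑ y ∈ range (N + 1 - fb m i a), cn K m i a (pt N i (fb m i a) y) : ℕ) : ℝ) := by
  classical
  set b := fb m i a with hb
  have hcn : ∀ y ∈ range (N + 1 - b), cn K m i a (pt N i b y) =
      ∑ p ∈ range (K - a + 1), if m (i + 1) y ≤ p ∧ m (i + 2) (N - b - y) ≤ K - a - p
        then 1 else 0 := by
    intro y _
    rw [← card_filter, count_split]
    unfold cn
    rw [pt_i1, pt_i2]
    omega
  rw [sum_congr rfl hcn, sum_comm]
  push_cast
  apply sum_le_sum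
  intro p hp
  by_cases hbn : b < N + 1
  · have h := count_line (N + 1) b (m i) (m (i + 1)) (m (i + 2)) a p (K - a - p)
      (fun j hj => fb_lt m i a j hj) hbn
    have e1 : N + 1 - 1 - b = N - b := by omega
    rw [e1] at h
    have h2 : (∑ y ∈ range (N + 1 - b), if m (i + 1) y ≤ p ∧ m (i + 2) (N - b - y) ≤ K - a - p
        then (1 : ℝ) else 0) =
        (((range (N + 1 - b)).filter (fun y => m (i + 1) y ≤ p ∧
          m (i + 2) (N - b - y) ≤ K - a - p)).card : ℝ) := by
      rw [card_filter]; push_cast; rfl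
    rw [h2]
    have h3 : ((cntB (N + 1) (m i) a + cntB (N + 1) (m (i + 1)) p +
        cntB (N + 1) (m (i + 2)) (K - a - p) : ℕ) : ℝ) ≤
        ((((range (N + 1 - b)).filter (fun y => m (i + 1) y ≤ p ∧
          m (i + 2) (N - b - y) ≤ K - a - p)).card + 2 * (N + 1) : ℕ) : ℝ) := by
      exact_mod_cast h
    push_cast at h3
    linarith
  · push Not at hbn
    have h0 : cntB (N + 1) (m i) a = 0 := by
      unfold cntB
      rw [card_eq_zero, filter_eq_empty_iff]
      intro j hj
      rw [mem_range] at hj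
      have := fb_lt m i a j (by omega)
      omega
    have h1 := cntB_le (N + 1) (m (i + 1)) p
    have h2 := cntB_le (N + 1) (m (i + 2)) (K - a - p)
    have h1' : (cntB (N + 1) (m (i + 1)) p : ℝ) ≤ N + 1 := by exact_mod_cast h1
    have h2' : (cntB (N + 1) (m (i + 2)) (K - a - p) : ℝ) ≤ N + 1 := by exact_mod_cast h2
    rw [h0]
    have : (0 : ℝ) ≤ ∑ y ∈ range (N + 1 - b), if m (i + 1) y ≤ p ∧
        m (i + 2) (N - b - y) ≤ K - a - p then (1 : ℝ) else 0 :=
      sum_nonneg (fun _ _ => by split_ifs <;> norm_num)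
    push_cast
    linarith

/-- the facet-parallel lines. -/
lemma facet_ge (n : ℕ) (μ : ℕ → ℕ) :
    ∑ a ∈ range (K + 1), ((n : ℝ) - cntB n μ a) ≤ ((∑ j ∈ range n, μ j : ℕ) : ℝ) := by
  classical
  have h1 : ∀ a, ((n : ℝ) - cntB n μ a) = ∑ j ∈ range n, if a < μ j then (1 : ℝ) else 0 := by
    intro a
    have h2 : (n : ℝ) = ∑ j ∈ range n, (1 : ℝ) := by simp
    have h3 : (cntB n μ a : ℝ) = ∑ j ∈ range n, if μ j ≤ a then (1 : ℝ) else 0 := by
      unfold cntB; rw [card_filter]; push_cast; rfl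
    rw [h3]
    nth_rewrite 1 [h2]
    rw [← sum_sub_distrib]
    apply sum_congr rfl
    intro j _
    by_cases h : μ j ≤ a
    · rw [if_pos h, if_neg (by omega)]; norm_num
    · rw [if_neg h, if_pos (by omega)]; norm_num
  simp_rw [h1]
  rw [sum_comm]
  push_cast
  apply sum_le_sum
  intro j _
  rw [← sum_filter, sum_const, nsmul_eq_mul, mul_one]
  have : (range (K + 1)).filter (fun a => a < μ j) ⊆ range (μ j) := by
    intro a ha
    rw [mem_filter] at ha
    exact mem_range.2 ha.2
  have := card_le_card this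
  rw [card_range] at this
  exact_mod_cast this

lemma swap_sum (c g : ℕ → ℝ) :
    ∑ a ∈ range (K + 1), c a * ∑ p ∈ range (K - a + 1), g p =
      ∑ p ∈ range (K + 1), g p * PS c (K + 1 - p) := by
  have h1 : ∀ a ∈ range (K + 1), c a * ∑ p ∈ range (K - a + 1), g p =
      ∑ p ∈ range (K + 1), if a + p ≤ K then c a * g p else 0 := by
    intro a ha
    rw [mem_range] at ha
    rw [mul_sum, ← sum_filter]
    apply sum_congr _ (fun _ _ => rfl)
    ext p
    rw [mem_filter, mem_range, mem_range]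
    omega
  have h2 : ∀ p ∈ range (K + 1), g p * PS c (K + 1 - p) =
      ∑ a ∈ range (K + 1), if a + p ≤ K then c a * g p else 0 := by
    intro p hp
    rw [mem_range] at hp
    unfold PS
    rw [mul_sum, ← sum_filter]
    apply sum_congr
    · ext a
      rw [mem_filter, mem_range, mem_range]
      omega
    · intro a _; ring
  rw [sum_congr rfl h1, sum_congr rfl h2, sum_comm]

variable {c : ℕ → ℝ} (hc : ∀ a, 0 ≤ c a)

include hz hc in
/-- **Abstract lower bound.** -/
theorem abs_bound {ι : Type*} (R : Finset ι) (P : ι → (Fin 3 → ℕ) → Prop)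
    (hgen : ∀ e ∈ R, Gen N (P e))
    (hcov : ∀ x : Fin 3 → ℕ, x 0 + x 1 + x 2 = N →
      ∃ S : Finset ι, S ⊆ R ∧ (∀ e ∈ S, P e x) ∧ K + 1 ≤ ms m x + S.card)
    (hA : ∀ a, a ≤ K → ((K : ℝ) + 1 - a) * c a + 2 * PS c (K + 1 - a) ≤ 1)
    (hB1 : 2 * PS c (K + 1) ≤ 1)
    (hB : ∀ u v, u + v ≤ K + 2 → PS c u + PS c v + PS c (K + 1) ≤ 1) :
    3 * ((N : ℝ) + 1) * ∑ a ∈ range (K + 1), ((K : ℝ) + 1 - a) * c a ≤
      ((∑ i, ∑ j ∈ range (N + 1), m i j : ℕ) : ℝ) + R.card := by
  classical
  set n : ℝ := (N : ℝ) + 1 with hn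
  set β : Fin 3 → ℕ → ℝ := fun i a => (cntB (N + 1) (m i) a : ℝ) with hβ
  have hβn : ∀ i a, β i a ≤ n := by
    intro i a
    have := cntB_le (N + 1) (m i) a
    have h : ((cntB (N + 1) (m i) a : ℕ) : ℝ) ≤ ((N + 1 : ℕ) : ℝ) := by exact_mod_cast this
    push_cast at h
    exact h
  -- generic lines
  have hR : ∑ i, ∑ a ∈ range (K + 1), c a * ∑ p ∈ range (K - a + 1),
      (β i a + β (i + 1) p + β (i + 2) (K - a - p) - 2 * n) ≤ (R.card : ℝ) := by
    calc ∑ i, ∑ a ∈ range (K + 1), c a * ∑ p ∈ range (K - a + 1),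
        (β i a + β (i + 1) p + β (i + 2) (K - a - p) - 2 * n)
        ≤ ∑ i, ∑ a ∈ range (K + 1), c a * ∑ e ∈ R, om N K m (P e) i a := by
          apply sum_le_sum
          intro i _
          apply sum_le_sum
          intro a ha
          rw [mem_range] at ha
          apply mul_le_mul_of_nonneg_left _ (hc a)
          exact (sum_cn_ge i a (by omega)).trans (sum_om_ge hz R P hcov i a)
      _ = ∑ e ∈ R, ∑ i, Dt N K m c (P e) i := by
          rw [sum_comm (s := R)]
          apply sum_congr rfl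
          intro i _
          unfold Dt
          rw [sum_comm (s := R)]
          apply sum_congr rfl
          intro a _
          rw [mul_sum]
      _ ≤ ∑ e ∈ R, (1 : ℝ) := by
          apply sum_le_sum
          intro e he
          exact weight_le_one hz hc (hgen e he) hB1 hB
      _ = (R.card : ℝ) := by simp
  have hM : ∀ i, ∑ a ∈ range (K + 1), (n - β i a) ≤ ((∑ j ∈ range (N + 1), m i j : ℕ) : ℝ) := by
    intro i
    have := facet_ge (K := K) (N + 1) (m i)
    push_cast at this ⊢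
    exact this
  have hMs : ∑ i, ∑ a ∈ range (K + 1), (n - β i a) ≤
      ((∑ i, ∑ j ∈ range (N + 1), m i j : ℕ) : ℝ) := by
    rw [Nat.cast_sum]
    exact sum_le_sum (fun i _ => hM i)
  refine le_trans ?_ (add_le_add hMs hR)
  -- algebra
  have hexp : ∀ i : Fin 3, ∑ a ∈ range (K + 1), c a * ∑ p ∈ range (K - a + 1),
      (β i a + β (i + 1) p + β (i + 2) (K - a - p) - 2 * n) =
      n * ∑ a ∈ range (K + 1), ((K : ℝ) + 1 - a) * c a
      - ∑ a ∈ range (K + 1), ((K : ℝ) + 1 - a) * c a * (n - β i a)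
      - ∑ a ∈ range (K + 1), (n - β (i + 1) a) * PS c (K + 1 - a)
      - ∑ a ∈ range (K + 1), (n - β (i + 2) a) * PS c (K + 1 - a) := by
    intro i
    rw [← swap_sum, ← swap_sum, mul_sum, ← sum_sub_distrib, ← sum_sub_distrib, ← sum_sub_distrib]
    apply sum_congr rfl
    intro a ha
    rw [mem_range] at ha
    have hr : ∑ p ∈ range (K - a + 1), (n - β (i + 2) p) =
        ∑ p ∈ range (K - a + 1), (n - β (i + 2) (K - a - p)) := by
      rw [← sum_range_reflect]
      apply sum_congr rfl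
      intro p _
      rfl
    rw [hr]
    have : ∑ p ∈ range (K - a + 1), (β i a + β (i + 1) p + β (i + 2) (K - a - p) - 2 * n) =
        ((K : ℝ) + 1 - a) * (n - (n - β i a)) - ∑ p ∈ range (K - a + 1), (n - β (i + 1) p)
        - ∑ p ∈ range (K - a + 1), (n - β (i + 2) (K - a - p)) := by
      have hcard : ((K : ℝ) + 1 - a) * (n - (n - β i a)) =
          ∑ p ∈ range (K - a + 1), (n - (n - β i a)) := by
        rw [sum_const, card_range, nsmul_eq_mul]
        have : ((K - a + 1 : ℕ) : ℝ) = (K : ℝ) + 1 - a := by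
          rw [Nat.cast_add, Nat.cast_sub (by omega)]; push_cast; ring
        rw [this]
      rw [hcard, ← sum_sub_distrib, ← sum_sub_distrib]
      apply sum_congr rfl
      intro p _
      ring
    rw [this]
    ring
  rw [Fin.sum_univ_three, Fin.sum_univ_three, hexp 0, hexp 1, hexp 2]
  have e1 : (0 : Fin 3) + 1 = 1 := rfl
  have e2 : (0 : Fin 3) + 2 = 2 := rfl
  have e3 : (1 : Fin 3) + 1 = 2 := rfl
  have e4 : (1 : Fin 3) + 2 = 0 := rfl
  have e5 : (2 : Fin 3) + 1 = 0 := rfl
  have e6 : (2 : Fin 3) + 2 = 1 := rfl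
  rw [e1, e2, e3, e4, e5, e6]
  have hfin : ∀ i : Fin 3, ∑ a ∈ range (K + 1), ((K : ℝ) + 1 - a) * c a * (n - β i a)
      + 2 * ∑ a ∈ range (K + 1), (n - β i a) * PS c (K + 1 - a) ≤
      ∑ a ∈ range (K + 1), (n - β i a) := by
    intro i
    rw [mul_sum, ← sum_add_distrib]
    apply sum_le_sum
    intro a ha
    rw [mem_range] at ha
    have := hA a (by omega)
    have h2 := hβn i a
    nlinarith
  have f0 := hfin 0
  have f1 := hfin 1
  have f2 := hfin 2
  linarith

end Pool.Agent.Helper53.TG
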