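import Pool.Agent.Helper53.TG.Abs

/-!
# The weight of a generic line is at most one
-/

namespace Pool.Agent.Helper53.TG

open Finset

variable (N K : ℕ) (m : Fin 3 → ℕ → ℕ)

/-- total multiplicity of the facet-parallel lines at a point. -/
def ms (x : Fin 3 → ℕ) : ℕ := m 0 (x 0) + m 1 (x 1) + m 2 (x 2)

lemma ms_eq (i : Fin 3) (x : Fin 3 → ℕ) :
    ms m x = m i (x i) + m (i + 1) (x (i + 1)) + m (i + 2) (x (i + 2)) := by
  unfold ms
  fin_cases i
  · rfl
  · show _ = m 1 (x 1) + m 2 (x 2) + m 0 (x 0); ring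
  · show _ = m 2 (x 2) + m 0 (x 0) + m 1 (x 1); ring

/-- the point with coordinate `i` equal to `b`, coordinate `i+1` equal to `y`. -/
def pt (i : Fin 3) (b y : ℕ) : Fin 3 → ℕ :=
  fun j => if j = i then b else if j = i + 1 then y else N - b - y

lemma pt_i (i : Fin 3) (b y : ℕ) : pt N i b y i = b := by simp [pt]

lemma pt_i1 (i : Fin 3) (b y : ℕ) : pt N i b y (i + 1) = y := by
  fin_cases i <;> simp [pt]

lemma pt_i2 (i : Fin 3) (b y : ℕ) : pt N i b y (i + 2) = N - b - y := by
  fin_cases i <;> simp [pt]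

lemma sum_eq (i : Fin 3) (x : Fin 3 → ℕ) :
    x 0 + x 1 + x 2 = x i + x (i + 1) + x (i + 2) := by
  fin_cases i
  · rfl
  · show _ = x 1 + x 2 + x 0; ring
  · show _ = x 2 + x 0 + x 1; ring

lemma pt_sum (i : Fin 3) (b y : ℕ) (h : b + y ≤ N) :
    pt N i b y 0 + pt N i b y 1 + pt N i b y 2 = N := by
  rw [sum_eq i, pt_i, pt_i1, pt_i2]; omega

lemma eq_pt (i : Fin 3) (x : Fin 3 → ℕ) (hx : x 0 + x 1 + x 2 = N) :
    x = pt N i (x i) (x (i + 1)) := by
  rw [sum_eq i] at hx
  have h2 : x (i + 2) = N - x i - x (i + 1) := by omega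
  funext j
  have hj : j = i ∨ j = i + 1 ∨ j = i + 2 := by
    fin_cases i <;> fin_cases j <;> decide
  rcases hj with rfl | rfl | rfl
  · rw [pt_i]
  · rw [pt_i1]
  · rw [pt_i2, h2]

/-- number of pairs `(p,q)` with `p + q = K - a` compatible with the point `x`. -/
def cn (i : Fin 3) (a : ℕ) (x : Fin 3 → ℕ) : ℕ :=
  K + 1 - a - m (i + 1) (x (i + 1)) - m (i + 2) (x (i + 2))

/-- defect of the point. -/
def df (x : Fin 3 → ℕ) : ℕ := K + 1 - ms m x

lemma cn_eq (i : Fin 3) (a : ℕ) (x : Fin 3 → ℕ) (h : m i (x i) ≤ a) :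
    cn K m i a x = df K m x - (a - m i (x i)) := by
  unfold cn df
  rw [ms_eq m i]
  omega

lemma cn_le (i : Fin 3) (a : ℕ) (x : Fin 3 → ℕ) (h : m i (x i) ≤ a) :
    cn K m i a x ≤ df K m x := by
  rw [cn_eq K m i a x h]; omega

variable (hz : ∀ i, ∃ j, m i j = 0)

/-- first position at level `≤ a`. -/
noncomputable def fb (i : Fin 3) (a : ℕ) : ℕ := sInf {j | m i j ≤ a}

include hz in
lemma fb_spec (i : Fin 3) (a : ℕ) : m i (fb m i a) ≤ a := by
  have : (fb m i a) ∈ {j | m i j ≤ a} := by
    apply Nat.sInf_mem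
    obtain ⟨j, hj⟩ := hz i
    exact ⟨j, by simp [hj]⟩
  exact this

lemma fb_lt (i : Fin 3) (a j : ℕ) (h : j < fb m i a) : a < m i j := by
  by_contra hc
  push Not at hc
  exact Nat.notMem_of_lt_sInf h hc

lemma fb_le (i : Fin 3) (a j : ℕ) (h : m i j ≤ a) : fb m i a ≤ j := Nat.sInf_le h

include hz in
lemma fb_anti (i : Fin 3) {a a' : ℕ} (h : a ≤ a') : fb m i a' ≤ fb m i a :=
  fb_le m i a' _ ((fb_spec m hz i a).trans h)

open Classical in
/-- the weight contributed by the crossing `(i,a)` of the set `P` of points. -/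
noncomputable def om (P : (Fin 3 → ℕ) → Prop) (i : Fin 3) (a : ℕ) : ℝ :=
  ∑ y ∈ range (N + 1 - fb m i a), if P (pt N i (fb m i a) y) then
    (cn K m i a (pt N i (fb m i a) y) : ℝ) / (df K m (pt N i (fb m i a) y) : ℝ) else 0

/-- A generic line: distinct points differ in every coordinate, and two of the coordinates are
comonotone. -/
structure Gen (P : (Fin 3 → ℕ) → Prop) : Prop where
  sum : ∀ x, P x → x 0 + x 1 + x 2 = N
  inj : ∀ x y, P x → P y → ∀ i, x i = y i → x = y
  co : ∃ j l : Fin 3, j ≠ l ∧ ∀ x y, P x → P y → x j < y j → x l < y l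

variable {N K m}

lemma om_nonneg (P : (Fin 3 → ℕ) → Prop) (i : Fin 3) (a : ℕ) : 0 ≤ om N K m P i a := by
  unfold om
  apply sum_nonneg
  intro y _
  split_ifs
  · positivity
  · exact le_rfl

/-- evaluation of the weight at a point of the line. -/
lemma om_eq {P : (Fin 3 → ℕ) → Prop} (hP : Gen N P) (i : Fin 3) (a : ℕ) (x : Fin 3 → ℕ) (hx : P x)
    (hxi : x i = fb m i a) :
    om N K m P i a = (cn K m i a x : ℝ) / (df K m x : ℝ) := by
  classical
  have hs := hP.sum x hx
  have hxp : x = pt N i (fb m i a) (x (i + 1)) := by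
    rw [← hxi]; exact eq_pt N i x hs
  unfold om
  have hmem : x (i + 1) ∈ range (N + 1 - fb m i a) := by
    rw [mem_range]
    rw [sum_eq i] at hs
    omega
  rw [sum_eq_single_of_mem _ hmem]
  · rw [← hxp, if_pos hx]
  · intro y hy hne
    rw [if_neg]
    intro hPy
    apply hne
    have := hP.inj _ _ hPy hx i (by rw [pt_i, hxi])
    rw [← this, pt_i1]

lemma om_zero {P : (Fin 3 → ℕ) → Prop} (i : Fin 3) (a : ℕ)
    (h : ∀ x, P x → x i ≠ fb m i a) : om N K m P i a = 0 := by
  classical
  unfold om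
  apply sum_eq_zero
  intro y _
  rw [if_neg]
  intro hPy
  exact h _ hPy (pt_i N i _ y)

include hz in
lemma om_le_one {P : (Fin 3 → ℕ) → Prop} (hP : Gen N P) (i : Fin 3) (a : ℕ) :
    om N K m P i a ≤ 1 := by
  by_cases h : ∃ x, P x ∧ x i = fb m i a
  · obtain ⟨x, hx, hxi⟩ := h
    rw [om_eq hP i a x hx hxi]
    apply div_le_one_of_le₀
    · exact_mod_cast cn_le K m i a x (by rw [hxi]; exact fb_spec m hz i a)
    · positivity
  · push Not at h
    rw [om_zero i a h]
    norm_num

include hz in
lemma om_ne {P : (Fin 3 → ℕ) → Prop} (hP : Gen N P) {i : Fin 3} {a : ℕ}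
    (h : om N K m P i a ≠ 0) : ∃ x, P x ∧ x i = fb m i a ∧ 0 < cn K m i a x := by
  by_cases h' : ∃ x, P x ∧ x i = fb m i a
  · obtain ⟨x, hx, hxi⟩ := h'
    refine ⟨x, hx, hxi, ?_⟩
    rw [om_eq hP i a x hx hxi] at h
    by_contra hc
    have : cn K m i a x = 0 := by omega
    rw [this] at h
    simp at h
  · push Not at h'
    exact absurd (om_zero i a h') h

variable (K m) (N)

/-- total weight of the crossings in direction `i`. -/
noncomputable def Dt (c : ℕ → ℝ) (P : (Fin 3 → ℕ) → Prop) (i : Fin 3) : ℝ :=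
  ∑ a ∈ range (K + 1), c a * om N K m P i a

variable {K m} {N}

variable {c : ℕ → ℝ} (hc : ∀ a, 0 ≤ c a)

include hz hc in
lemma Dt_le {P : (Fin 3 → ℕ) → Prop} (hP : Gen N P) (i : Fin 3) (u : ℕ)
    (h : ∀ a, u ≤ a → a ≤ K → om N K m P i a = 0) : Dt N K m c P i ≤ PS c u := by
  unfold Dt
  calc ∑ a ∈ range (K + 1), c a * om N K m P i a
      ≤ ∑ a ∈ range (K + 1), if a < u then c a else 0 := by
        apply sum_le_sum
        intro a ha
        rw [mem_range] at ha
        split_ifs with hau
        · have := om_le_one (K := K) hz hP i a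
          nlinarith [hc a]
        · rw [h a (by omega) (by omega)]; simp
    _ = ∑ a ∈ (range (K + 1)).filter (fun a => a < u), c a := by rw [sum_filter]
    _ ≤ PS c u := by
        unfold PS
        apply sum_le_sum_of_subset_of_nonneg
        · intro a ha
          rw [mem_filter] at ha
          rw [mem_range]; exact ha.2
        · intros; exact hc _

include hz hc in
lemma Dt_le_all {P : (Fin 3 → ℕ) → Prop} (hP : Gen N P) (i : Fin 3) :
    Dt N K m c P i ≤ PS c (K + 1) := Dt_le hz hc hP i (K + 1) (fun a h1 h2 => by omega)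

include hc in
lemma Dt_nonneg (P : (Fin 3 → ℕ) → Prop) (i : Fin 3) : 0 ≤ Dt N K m c P i := by
  unfold Dt
  exact sum_nonneg (fun a _ => mul_nonneg (hc a) (om_nonneg P i a))

include hz hc in
/-- Corner bound. -/
lemma Dt_corner {P : (Fin 3 → ℕ) → Prop} (hP : Gen N P) (j : Fin 3) (x : Fin 3 → ℕ) (hx : P x)
    (a0 : ℕ) (hxj : x j = fb m j a0)
    (hmax : ∀ a, a0 < a → a ≤ K → om N K m P j a = 0) (hd : ms m x ≤ K + 1) :
    Dt N K m c P j * (df K m x : ℝ) ≤ ∑ e ∈ range (df K m x), PS c (m j (x j) + 1 + e) := by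
  set δ := df K m x with hδ
  have hmj : m j (x j) + δ ≤ K + 1 := by
    rw [hδ]; unfold df
    have := ms_eq m j x
    omega
  have hbound : ∀ a ∈ range (K + 1), om N K m P j a * (δ : ℝ) ≤
      (((range δ).filter (fun e => a < m j (x j) + 1 + e)).card : ℝ) := by
    intro a ha
    rw [mem_range] at ha
    by_cases h1 : a < m j (x j)
    · have : (range δ).filter (fun e => a < m j (x j) + 1 + e) = range δ := by
        apply filter_true_of_mem
        intro e _; omega
      rw [this, card_range]
      have := om_le_one (K := K) hz hP j a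
      nlinarith [Nat.cast_nonneg (α := ℝ) δ]
    · push Not at h1
      by_cases h2 : a ≤ a0
      · have hxa : x j = fb m j a := by
          apply le_antisymm
          · rw [hxj]; exact fb_anti m hz j h2
          · exact fb_le m j a _ h1
        rw [om_eq hP j a x hx hxa, cn_eq K m j a x h1]
        have : (range δ).filter (fun e => a < m j (x j) + 1 + e) = Ico (a - m j (x j)) δ := by
          ext e
          rw [mem_filter, mem_range, mem_Ico]
          omega
        rw [this, Nat.card_Ico, ← hδ]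
        by_cases h0 : δ = 0
        · rw [h0]; simp
        · have : (δ : ℝ) ≠ 0 := by exact_mod_cast h0
          rw [div_mul_cancel₀ _ this]
      · rw [hmax a (by omega) (by omega)]
        simp
  have hPS : ∀ e ∈ range δ, PS c (m j (x j) + 1 + e) =
      ∑ a ∈ range (K + 1), if a < m j (x j) + 1 + e then c a else 0 := by
    intro e he
    rw [mem_range] at he
    rw [← sum_filter]
    unfold PS
    apply sum_congr _ (fun _ _ => rfl)
    ext a
    rw [mem_filter, mem_range, mem_range]
    omega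
  rw [sum_congr rfl hPS, sum_comm]
  unfold Dt
  rw [sum_mul]
  apply sum_le_sum
  intro a ha
  rw [← sum_filter, sum_const, nsmul_eq_mul]
  have := hbound a ha
  nlinarith [hc a]

include hz hc in
/-- comonotone directions. -/
lemma pair_bound {P : (Fin 3 → ℕ) → Prop} (hP : Gen N P) {j l : Fin 3} (hjl : j ≠ l)
    (hco : ∀ x y, P x → P y → x j < y j → x l < y l)
    (hB : ∀ u v, u + v ≤ K + 2 → PS c u + PS c v + PS c (K + 1) ≤ 1) :
    Dt N K m c P j = 0 ∨ Dt N K m c P l = 0 ∨
      Dt N K m c P j + Dt N K m c P l + PS c (K + 1) ≤ 1 := by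
  classical
  have hex : ∀ i, Dt N K m c P i = 0 ∨ ∃ a, a ≤ K ∧ om N K m P i a ≠ 0 ∧
      ∀ a', a < a' → a' ≤ K → om N K m P i a' = 0 := by
    intro i
    by_cases hne : ((range (K + 1)).filter (fun a => om N K m P i a ≠ 0)).Nonempty
    · right
      obtain ⟨a, ha, hmx⟩ := exists_max_image _ id hne
      rw [mem_filter, mem_range] at ha
      refine ⟨a, by omega, ha.2, ?_⟩
      intro a' h1 h2
      by_contra hc'
      have := hmx a' (by rw [mem_filter, mem_range]; exact ⟨by omega, hc'⟩)
      simp only [id] at this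
      omega
    · left
      rw [not_nonempty_iff_eq_empty, filter_eq_empty_iff] at hne
      unfold Dt
      apply sum_eq_zero
      intro a ha
      have := hne ha
      push Not at this
      rw [this, mul_zero]
  rcases hex j with h | ⟨a, haK, hane, hamax⟩
  · exact Or.inl h
  rcases hex l with h | ⟨b, hbK, hbne, hbmax⟩
  · exact Or.inr (Or.inl h)
  right; right
  obtain ⟨p, hp, hpj, hpc⟩ := om_ne hz hP hane
  obtain ⟨q, hq, hql, hqc⟩ := om_ne hz hP hbne
  have hDj : Dt N K m c P j ≤ PS c (a + 1) :=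
    Dt_le hz hc hP j (a + 1) (fun a' h1 h2 => hamax a' (by omega) h2)
  have hDl : Dt N K m c P l ≤ PS c (b + 1) :=
    Dt_le hz hc hP l (b + 1) (fun a' h1 h2 => hbmax a' (by omega) h2)
  -- the multiplicities at the points
  have hmj : m j (p j) ≤ a := by rw [hpj]; exact fb_spec m hz j a
  have hml : m l (q l) ≤ b := by rw [hql]; exact fb_spec m hz l b
  have hother : ∀ x : Fin 3 → ℕ, m j (x j) + m l (x l) ≤ ms m x := by
    intro x
    unfold ms
    fin_cases j <;> fin_cases l <;> simp at hjl ⊢ <;> omega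
  by_cases hpq : p = q
  · -- corner
    subst hpq
    have hcn := cn_eq K m j a p hmj
    have hdpos : 0 < df K m p := by omega
    have hms : ms m p ≤ K + 1 := by unfold df at hdpos; omega
    have h1 := Dt_corner hz hc hP j p hp a hpj hamax hms
    have h2 := Dt_corner hz hc hP l p hp b hql hbmax hms
    set δ := df K m p with hδ
    have hrefl : ∑ e ∈ range δ, PS c (m l (p l) + 1 + e) =
        ∑ e ∈ range δ, PS c (m l (p l) + 1 + (δ - 1 - e)) :=
      (sum_range_reflect (fun e => PS c (m l (p l) + 1 + e)) δ).symm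
    rw [hrefl] at h2
    have hsum : ∑ e ∈ range δ, (PS c (m j (p j) + 1 + e) + PS c (m l (p l) + 1 + (δ - 1 - e))) ≤
        ∑ e ∈ range δ, (1 - PS c (K + 1)) := by
      apply sum_le_sum
      intro e he
      rw [mem_range] at he
      have h3 := hother p
      have : δ = K + 1 - ms m p := rfl
      have := hB (m j (p j) + 1 + e) (m l (p l) + 1 + (δ - 1 - e)) (by omega)
      linarith
    rw [sum_add_distrib, sum_const, card_range, nsmul_eq_mul] at hsum
    have hδ' : (0 : ℝ) < δ := by exact_mod_cast hdpos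
    have : (Dt N K m c P j + Dt N K m c P l) * (δ : ℝ) ≤ (1 - PS c (K + 1)) * δ := by
      nlinarith
    have := le_of_mul_le_mul_right this hδ'
    linarith
  · -- distinct points
    have hne : p j ≠ q j := fun h => hpq (hP.inj p q hp hq j h)
    have hab : a + b + 2 ≤ K + 2 := by
      rcases Nat.lt_or_gt_of_ne hne with hlt | hlt
      · have h1 := hco p q hp hq hlt
        rw [hql] at h1
        have h2 := fb_lt m l b _ h1
        have h3 := cn_eq K m j a p hmj
        have h4 := hother p
        unfold df at h3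
        omega
      · have h1 : q l ≠ p l := fun h => hpq (hP.inj p q hp hq l h.symm)
        have h2 := hco q p hq hp hlt
        rw [hpj] at hlt
        have h2 := fb_lt m j a _ hlt
        have h3 := cn_eq K m l b q hml
        have h4 := hother q
        unfold df at h3
        omega
    have := hB (a + 1) (b + 1) (by omega)
    linarith

include hz hc in
/-- the weight of a generic line is at most one. -/
theorem weight_le_one {P : (Fin 3 → ℕ) → Prop} (hP : Gen N P)
    (hB1 : 2 * PS c (K + 1) ≤ 1)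
    (hB : ∀ u v, u + v ≤ K + 2 → PS c u + PS c v + PS c (K + 1) ≤ 1) :
    ∑ i, Dt N K m c P i ≤ 1 := by
  obtain ⟨j, l, hjl, hco⟩ := hP.co
  have h0 := Dt_le_all (K := K) hz hc hP 0
  have h1 := Dt_le_all (K := K) hz hc hP 1
  have h2 := Dt_le_all (K := K) hz hc hP 2
  rw [Fin.sum_univ_three]
  rcases pair_bound (K := K) hz hc hP hjl hco hB with h | h | h
  · fin_cases j <;> simp at h <;> linarith
  · fin_cases l <;> simp at h <;> linarith
  · fin_cases j <;> fin_cases l <;> simp at h hjl <;> linarith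

end Pool.Agent.Helper53.TG
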