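import Mathlib

/-!
# `k`-covers of triangular grids by hyperplanes: definitions
-/

namespace Pool.Agent.Helper53.TG

/-- The triangular grid `T_d(n)`: the points of `ℝ^d` whose coordinates are nonnegative integers
`z 0, ..., z (d-1)` with `z 0 + ... + z (d-1) ≤ n - 1` (written `∑ z i + 1 ≤ n`). -/
def Grid (d n : ℕ) : Set (Fin d → ℝ) :=
  {x | ∃ z : Fin d → ℕ, (∀ i, x i = (z i : ℝ)) ∧ ∑ i, z i + 1 ≤ n}

/-- `S` is an affine hyperplane of `ℝ^d`: the solution set of one linear equation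
`∑ a i * x i = b` with `a ≠ 0`. -/
def IsHyperplane {d : ℕ} (S : Set (Fin d → ℝ)) : Prop :=
  ∃ (a : Fin d → ℝ) (b : ℝ), a ≠ 0 ∧ S = {x | ∑ i, a i * x i = b}

open Classical in
/-- `H` is a `k`-cover of `T_d(n)`: a finite multiset of affine hyperplanes such that every point
of `T_d(n)` lies in at least `k` of them, counted with multiplicity. -/
def IsCover (d n k : ℕ) (H : Multiset (Set (Fin d → ℝ))) : Prop :=
  (∀ S ∈ H, IsHyperplane S) ∧
    ∀ x ∈ Grid d n, k ≤ Multiset.card (H.filter (fun S => x ∈ S))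

/-- `f n d k`: the minimum cardinality (with multiplicity) of a `k`-cover of `T_d(n)`. -/
noncomputable def f (n d k : ℕ) : ℕ :=
  sInf {m | ∃ H : Multiset (Set (Fin d → ℝ)), IsCover d n k H ∧ Multiset.card H = m}

/-- `IsRate d k C`: `f(n,d,k) = C n + O(1)` as `n → ∞`, i.e. `C_{d,k}` exists and equals `C`. -/
def IsRate (d k : ℕ) (C : ℝ) : Prop :=
  ∃ B : ℝ, ∀ n : ℕ, 1 ≤ n → |(f n d k : ℝ) - C * n| ≤ B

end Pool.Agent.Helper53.TG
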