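import Pool.Agent.Helper53.TG.AbsThree

/-!
# The optimal weights for `d = 2`
-/

namespace Pool.Agent.Helper53.TG

open Finset

/-- The middle piece. -/
noncomputable def mid (k J : ℕ) (u : ℕ) : ℝ :=
  1 / 2 - (u * (2 * k + 1 - 3 * u) : ℝ) / (2 * ((3 * J - k + 1) * (k - J)))

/-- The partial sums of the optimal weights. -/
noncomputable def FF (k J : ℕ) (u : ℕ) : ℝ :=
  if u ≤ k - J then 0 else if u ≤ J then mid k J u else 1 / 2

/-- the weights. -/
noncomputable def wt (k J : ℕ) (a : ℕ) : ℝ := FF k J (a + 1) - FF k J a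

lemma PS_wt (k J u : ℕ) : PS (wt k J) u = FF k J u := by
  unfold PS wt
  rw [sum_range_sub]
  have : FF k J 0 = 0 := by unfold FF; simp
  rw [this, sub_zero]

section
variable {k J : ℕ} (hk : 2 ≤ k) (h1 : 3 * J ≤ 2 * k + 1) (h2 : 2 * k + 1 ≤ 3 * J + 2)

include hk h1 in
lemma pos1 : (0 : ℝ) < (k : ℝ) - J := by
  have : J < k := by omega
  have : (J : ℝ) < k := by exact_mod_cast this
  linarith

include hk h1 h2 in
lemma pos2 : (0 : ℝ) < 3 * (J : ℝ) - k + 1 := by
  have : k < 3 * J + 1 := by omega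
  have : (k : ℝ) < 3 * J + 1 := by exact_mod_cast this
  linarith

include hk h1 h2 in
lemma mid_low : mid k J (k - J) = 0 := by
  have p1 := pos1 hk h1
  have p2 := pos2 hk h1 h2
  unfold mid
  have hc : ((k - J : ℕ) : ℝ) = (k : ℝ) - J := by
    rw [Nat.cast_sub (by omega)]
  rw [hc]
  have : (2 * (k : ℝ) + 1 - 3 * ((k : ℝ) - J)) = 3 * (J : ℝ) - k + 1 := by ring
  rw [this, sub_eq_zero, div_eq_div_iff (by norm_num) (by positivity)]
  ring

include hk h1 h2 in
lemma mid_step (u : ℕ) : mid k J (u + 1) - mid k J u =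
    (3 * (u : ℝ) - k + 1) / ((3 * J - k + 1) * (k - J)) := by
  have p1 := (pos1 hk h1).ne'
  have p2 := (pos2 hk h1 h2).ne'
  unfold mid
  push_cast
  field_simp
  ring

include hk h1 h2 in
lemma mid_le_half (u : ℕ) (hu : u ≤ J) : mid k J u ≤ 1 / 2 := by
  have p1 := pos1 hk h1
  have p2 := pos2 hk h1 h2
  unfold mid
  have : (0 : ℝ) ≤ (u * (2 * k + 1 - 3 * u) : ℝ) / (2 * ((3 * J - k + 1) * (k - J))) := by
    apply div_nonneg
    · apply mul_nonneg (by positivity)
      have : 3 * u ≤ 2 * k + 1 := by omega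
      have : (3 : ℝ) * u ≤ 2 * k + 1 := by exact_mod_cast this
      linarith
    · positivity
  linarith

include hk h1 h2 in
lemma FF_mid (u : ℕ) (hu1 : k - J ≤ u) (hu2 : u ≤ J) : FF k J u = mid k J u := by
  unfold FF
  split_ifs with h
  · have : u = k - J := le_antisymm h hu1
    rw [this, mid_low hk h1 h2]
  · rfl

lemma FF_high (u : ℕ) (hu : J < u) (hu' : k - J < u) : FF k J u = 1 / 2 := by
  unfold FF
  rw [if_neg (by omega), if_neg (by omega)]

include hk h1 h2 in
lemma wt_mid (a : ℕ) (ha1 : k - J ≤ a) (ha2 : a < J) :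
    wt k J a = (3 * (a : ℝ) - k + 1) / ((3 * J - k + 1) * (k - J)) := by
  unfold wt
  rw [FF_mid hk h1 h2 a ha1 ha2.le, FF_mid hk h1 h2 (a + 1) (by omega) (by omega)]
  exact mid_step hk h1 h2 a

include hk h1 h2 in
lemma wt_top : wt k J J = (J * (2 * k + 1 - 3 * J) : ℝ) / (2 * ((3 * J - k + 1) * (k - J))) := by
  unfold wt
  rw [FF_mid hk h1 h2 J (by omega) le_rfl, FF_high (J + 1) (by omega) (by omega)]
  unfold mid
  ring

lemma wt_low (a : ℕ) (ha : a < k - J) : wt k J a = 0 := by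
  unfold wt FF
  rw [if_pos (by omega), if_pos (by omega)]
  ring

include hk h1 h2 in
lemma wt_high (a : ℕ) (ha : J < a) : wt k J a = 0 := by
  unfold wt
  rw [FF_high a (by omega) (by omega), FF_high (a + 1) (by omega) (by omega)]
  ring

include hk h1 h2 in
lemma wt_nonneg (a : ℕ) : 0 ≤ wt k J a := by
  have p1 := pos1 hk h1
  have p2 := pos2 hk h1 h2
  rcases lt_or_ge a (k - J) with h | h
  · rw [wt_low a h]
  rcases lt_trichotomy a J with h' | h' | h'
  · rw [wt_mid hk h1 h2 a h h']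
    apply div_nonneg _ (by positivity)
    have : k ≤ 3 * a + 1 := by omega
    have : (k : ℝ) ≤ 3 * a + 1 := by exact_mod_cast this
    linarith
  · rw [h', wt_top hk h1 h2]
    apply div_nonneg _ (by positivity)
    apply mul_nonneg (by positivity)
    have : (3 : ℝ) * J ≤ 2 * k + 1 := by exact_mod_cast h1
    linarith
  · rw [wt_high hk h1 h2 a h']

include hk h1 h2 in
lemma FF_mono {u v : ℕ} (h : u ≤ v) : FF k J u ≤ FF k J v := by
  rw [← PS_wt, ← PS_wt]
  exact PS_mono (wt_nonneg hk h1 h2) h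

include hk h1 h2 in
lemma FF_le_half (u : ℕ) : FF k J u ≤ 1 / 2 := by
  unfold FF
  split_ifs with ha hb
  · norm_num
  · exact mid_le_half hk h1 h2 u hb
  · exact le_rfl

include hk h1 h2 in
lemma FF_top : FF k J k = 1 / 2 := FF_high k (by omega) (by omega)

include hk h1 h2 in
lemma cond_A (a : ℕ) (ha : a < k) : ((k : ℝ) - a) * wt k J a + 2 * FF k J (k - a) ≤ 1 := by
  have p1 := pos1 hk h1
  have p2 := pos2 hk h1 h2
  have hh := FF_le_half hk h1 h2 (k - a)
  rcases lt_or_ge a (k - J) with h | h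
  · rw [wt_low a h]; linarith
  rcases lt_trichotomy a J with h' | h' | h'
  · rw [wt_mid hk h1 h2 a h h', FF_mid hk h1 h2 (k - a) (by omega) (by omega)]
    unfold mid
    have hc : ((k - a : ℕ) : ℝ) = (k : ℝ) - a := by rw [Nat.cast_sub (by omega)]
    rw [hc]
    apply le_of_eq
    field_simp
    ring
  · rw [h', wt_top hk h1 h2, FF_mid hk h1 h2 (k - J) (by omega) (by omega), mid_low hk h1 h2]
    have : ((k : ℝ) - J) * ((J * (2 * k + 1 - 3 * J) : ℝ) / (2 * ((3 * J - k + 1) * (k - J)))) =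
        (J * (2 * k + 1 - 3 * J) : ℝ) / (2 * (3 * J - k + 1)) := by
      field_simp
    rw [this, mul_zero, add_zero, div_le_one (by positivity)]
    have h3 : (2 * (k : ℝ) + 1) ≤ 3 * J + 2 := by exact_mod_cast h2
    have h4 : (3 : ℝ) * J ≤ 2 * k + 1 := by exact_mod_cast h1
    have h5 : (0 : ℝ) ≤ J := by positivity
    have hcase : 2 * k + 1 = 3 * J ∨ 2 * k + 1 = 3 * J + 1 ∨ 2 * k + 1 = 3 * J + 2 := by omega
    rcases hcase with h | h | h
    · have h6 : (2 * (k : ℝ) + 1) = 3 * J := by exact_mod_cast h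
      rw [h6]; nlinarith
    · have h6 : (2 * (k : ℝ) + 1) = 3 * J + 1 := by exact_mod_cast h
      rw [h6]; nlinarith
    · have h6 : (2 * (k : ℝ) + 1) = 3 * J + 2 := by exact_mod_cast h
      rw [h6]; nlinarith
  · rw [wt_high hk h1 h2 a h']; linarith

include hk h1 h2 in
lemma cond_B (u v : ℕ) (huv : u + v ≤ k + 1) : FF k J u + FF k J v + FF k J k ≤ 1 := by
  have p1 := pos1 hk h1
  have p2 := pos2 hk h1 h2
  rw [FF_top hk h1 h2]
  rcases le_or_gt u (k - J) with hu | hu
  · have : FF k J u = 0 := by unfold FF; rw [if_pos hu]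
    have := FF_le_half hk h1 h2 v
    linarith
  rcases le_or_gt v (k - J) with hv | hv
  · have : FF k J v = 0 := by unfold FF; rw [if_pos hv]
    have := FF_le_half hk h1 h2 u
    linarith
  -- enlarge v
  obtain ⟨w, hw⟩ : ∃ w, w = k + 1 - u := ⟨_, rfl⟩
  have hm := FF_mono hk h1 h2 (show v ≤ w by omega)
  have hwJ : w ≤ J := by omega
  have huJ : u ≤ J := by omega
  have hwk : k - J ≤ w := by omega
  suffices FF k J u + FF k J w ≤ 1 / 2 by linarith
  rw [FF_mid hk h1 h2 u hu.le huJ, FF_mid hk h1 h2 w hwk hwJ]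
  unfold mid
  have hwr : (w : ℝ) = (k : ℝ) + 1 - u := by
    rw [hw, Nat.cast_sub (by omega)]; push_cast; ring
  rw [hwr]
  have hq1 : (0 : ℝ) ≤ (J : ℝ) - u := by
    have : (u : ℝ) ≤ J := by exact_mod_cast huJ
    linarith
  have hq2 : (0 : ℝ) ≤ (u : ℝ) + J - k - 1 := by
    have : k + 1 ≤ u + J := by omega
    have : (k : ℝ) + 1 ≤ u + J := by exact_mod_cast this
    linarith
  have hprod := mul_nonneg hq1 hq2
  have hkey : ((3 * (J : ℝ) - k + 1) * (k - J)) ≤
      (u : ℝ) * (2 * k + 1 - 3 * u) + ((k : ℝ) + 1 - u) * (2 * k + 1 - 3 * ((k : ℝ) + 1 - u)) := by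
    have hcase : (2 * k + 1 = 3 * J) ∨ (2 * k + 1 = 3 * J + 1 ∧ 2 ≤ J) ∨
        (2 * k + 1 = 3 * J + 2 ∧ 2 ≤ J) := by omega
    rcases hcase with h | ⟨h, hJ⟩ | ⟨h, hJ⟩
    · have h6 : (k : ℝ) = (3 * J - 1) / 2 := by
        have : (2 * (k : ℝ) + 1) = 3 * J := by exact_mod_cast h
        linarith
      rw [h6] at hprod ⊢
      nlinarith
    · have h6 : (k : ℝ) = (3 * J) / 2 := by
        have : (2 * (k : ℝ) + 1) = 3 * J + 1 := by exact_mod_cast h
        linarith
      have h7 : (2 : ℝ) ≤ J := by exact_mod_cast hJ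
      rw [h6] at hprod ⊢
      nlinarith
    · have h6 : (k : ℝ) = (3 * J + 1) / 2 := by
        have : (2 * (k : ℝ) + 1) = 3 * J + 2 := by exact_mod_cast h
        linarith
      have h7 : (2 : ℝ) ≤ J := by exact_mod_cast hJ
      rw [h6] at hprod ⊢
      nlinarith
  have hD : (0 : ℝ) < (3 * (J : ℝ) - k + 1) * (k - J) := by positivity
  have : 1 / 2 ≤ ((u : ℝ) * (2 * k + 1 - 3 * u)) / (2 * ((3 * J - k + 1) * (k - J))) +
      (((k : ℝ) + 1 - u) * (2 * k + 1 - 3 * ((k : ℝ) + 1 - u))) /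
        (2 * ((3 * J - k + 1) * (k - J))) := by
    rw [← add_div, le_div_iff₀ (by positivity)]
    linarith
  linarith

/-- primitive of the middle piece -/
lemma sum_FF_low (v : ℕ) (hv : v ≤ k - J) : ∑ u ∈ range (v + 1), FF k J u = 0 := by
  apply sum_eq_zero
  intro u hu
  rw [mem_range] at hu
  unfold FF
  rw [if_pos (by omega)]

include hk h1 h2 in
lemma sum_FF_mid (v : ℕ) (hv : k - J ≤ v) (hv2 : v ≤ J) : ∑ u ∈ range (v + 1), FF k J u =
    ((v : ℝ) - (k - J)) / 2 - ((v : ℝ) * (v + 1) * (k - v) - (k - J) * (k - J + 1) * J) /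
      (2 * ((3 * J - k + 1) * (k - J))) := by
  have p1 := (pos1 hk h1).ne'
  have p2 := (pos2 hk h1 h2).ne'
  induction v, hv using Nat.le_induction with
  | base =>
    rw [sum_FF_low (k - J) le_rfl]
    have hc : ((k - J : ℕ) : ℝ) = (k : ℝ) - J := by rw [Nat.cast_sub (by omega)]
    rw [hc]
    ring
  | succ w hw ih =>
    rw [sum_range_succ, ih (by omega), FF_mid hk h1 h2 (w + 1) (by omega) hv2]
    unfold mid
    push_cast
    field_simp
    ring

include hk h1 h2 in
lemma sum_FF_high (v : ℕ) (hv : J ≤ v) : ∑ u ∈ range (v + 1), FF k J u =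
    (∑ u ∈ range (J + 1), FF k J u) + ((v : ℝ) - J) / 2 := by
  induction v, hv using Nat.le_induction with
  | base => ring
  | succ w hw ih =>
    rw [sum_range_succ, ih, FF_high (w + 1) (by omega) (by omega)]
    push_cast
    ring

include hk h1 h2 in
lemma sum_FF : ∑ u ∈ range (k + 1), FF k J u = ((J : ℝ) * (J + 1)) / (2 * (3 * J - k + 1)) := by
  have p1 := pos1 hk h1
  have p2 := pos2 hk h1 h2
  rw [sum_FF_high hk h1 h2 k (by omega), sum_FF_mid hk h1 h2 J (by omega) le_rfl]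
  have e : ((J : ℝ) * (J + 1) * (k - J) - (k - J) * (k - J + 1) * J) /
      (2 * ((3 * J - k + 1) * (k - J))) = ((J : ℝ) * (2 * J - k)) / (2 * (3 * J - k + 1)) := by
    rw [div_eq_div_iff (by positivity) (by positivity)]
    ring
  rw [e]
  have e2 : ((J : ℝ) - (k - J)) / 2 = (((J : ℝ) - (k - J)) * (3 * J - k + 1)) /
      (2 * (3 * J - k + 1)) := by
    rw [div_eq_div_iff (by norm_num) (by positivity)]
    ring
  have e3 : ((k : ℝ) - J) / 2 = (((k : ℝ) - J) * (3 * J - k + 1)) /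
      (2 * (3 * J - k + 1)) := by
    rw [div_eq_div_iff (by norm_num) (by positivity)]
    ring
  rw [e2, e3, ← sub_div, ← add_div]
  congr 1
  ring

end

end Pool.Agent.Helper53.TG
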