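import Pool.Agent.Helper53.TG.Upper
import Pool.Agent.Helper53.TG.Wts

/-!
# From plane covers to the abstract statement
-/

namespace Pool.Agent.Helper53.TG

open Finset

/-- A multiset as a family indexed by `Fin L`. -/
lemma exists_family {α : Type*} (H : Multiset α) :
    ∃ (L : ℕ) (h : Fin L → α), L = Multiset.card H ∧ H = (univ : Finset (Fin L)).val.map h := by
  obtain ⟨l, rfl⟩ := Quot.exists_rep H
  refine ⟨l.length, l.get, rfl, ?_⟩
  have : (univ : Finset (Fin l.length)).val.map l.get = (List.ofFn l.get : Multiset α) :=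
    Fin.univ_val_map l.get
  show (l : Multiset α) = _
  exact (this.trans (by rw [List.ofFn_get])).symm

/-- the facet-parallel lines of the plane are distinct. -/
lemma FH_inj (n : ℕ) : Function.Injective (fun p : Fin 3 × ℕ => FH 2 n p.1 p.2) := by
  have b0 : ∀ x : Fin 2 → ℝ, bc n x (0 : Fin 3) = x 0 := fun x => bc_castSucc n x 0
  have b1 : ∀ x : Fin 2 → ℝ, bc n x (1 : Fin 3) = x 1 := fun x => bc_castSucc n x 1
  have b2 : ∀ x : Fin 2 → ℝ, bc n x (2 : Fin 3) = (n : ℝ) - 1 - (x 0 + x 1) := fun x => by
    have := bc_last n x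
    rw [Fin.sum_univ_two] at this
    exact this
  have m0 : ∀ (j : ℕ) (x y : ℝ), (![x, y] : Fin 2 → ℝ) ∈ FH 2 n 0 j ↔ x = j := by
    intro j x y
    show bc n _ (0 : Fin 3) = _ ↔ _
    rw [b0]; simp
  have m1 : ∀ (j : ℕ) (x y : ℝ), (![x, y] : Fin 2 → ℝ) ∈ FH 2 n 1 j ↔ y = j := by
    intro j x y
    show bc n _ (1 : Fin 3) = _ ↔ _
    rw [b1]; simp
  have m2 : ∀ (j : ℕ) (x y : ℝ), (![x, y] : Fin 2 → ℝ) ∈ FH 2 n 2 j ↔
      (n : ℝ) - 1 - (x + y) = j := by
    intro j x y
    show bc n _ (2 : Fin 3) = _ ↔ _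
    rw [b2]; simp
  rintro ⟨i, j⟩ ⟨i', j'⟩ h
  simp only at h
  have key : ∀ x y : ℝ, (![x, y] : Fin 2 → ℝ) ∈ FH 2 n i j ↔ (![x, y] : Fin 2 → ℝ) ∈ FH 2 n i' j' :=
    fun x y => by rw [h]
  fin_cases i <;> fin_cases i' <;> simp only [Fin.zero_eta, Fin.mk_one, Fin.reduceFinMk, m0, m1, m2]
    at key ⊢
  · have := (key j 0).1 rfl
    have : j = j' := by exact_mod_cast this
    rw [this]
  · exfalso
    have := (key j (j' + 1)).1 rfl
    linarith
  · exfalso
    have a := (key j 0).1 rfl
    have b := (key j 1).1 rfl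
    linarith
  · exfalso
    have := (key (j' + 1) j).1 rfl
    linarith
  · have := (key 0 j).1 rfl
    have : j = j' := by exact_mod_cast this
    rw [this]
  · exfalso
    have a := (key 0 j).1 rfl
    have b := (key 1 j).1 rfl
    linarith
  · exfalso
    have a := (key j' 0).2 rfl
    have b := (key j' 1).2 rfl
    linarith
  · exfalso
    have a := (key 0 j').2 rfl
    have b := (key 1 j').2 rfl
    linarith
  · have := (key 0 ((n : ℝ) - 1 - j)).1 (by ring)
    have : (j : ℝ) = j' := by linarith
    have : j = j' := by exact_mod_cast this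
    rw [this]

section

variable {N : ℕ} {L : ℕ} (h : Fin L → Set (Fin 2 → ℝ))

open Classical in
/-- multiplicity of the facet-parallel lines. -/
noncomputable def mult (N : ℕ) (i : Fin 3) (j : ℕ) : ℕ :=
  (univ.filter (fun e => h e = FH 2 (N + 1) i j)).card

lemma sum_mult_le (T : Finset (Fin 3 × ℕ)) :
    (∑ p ∈ T, mult h N p.1 p.2) =
      (T.biUnion (fun p => (univ.filter (fun e => h e = FH 2 (N + 1) p.1 p.2)))).card := by
  classical
  rw [card_biUnion]
  · apply sum_congr rfl
    intro p _
    unfold mult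
    congr
  · intro p _ q _ hpq
    rw [Function.onFun, disjoint_left]
    intro e he he'
    rw [mem_filter] at he he'
    apply hpq
    apply FH_inj (N + 1)
    simp only
    rw [← he.2, ← he'.2]

lemma mult_zero (i : Fin 3) : ∃ j, mult h N i j = 0 := by
  classical
  by_contra hc
  push Not at hc
  have h1 := sum_mult_le (N := N) h ((range (L + 1)).image (fun j => (i, j)))
  have h2 : (((range (L + 1)).image (fun j => (i, j))).biUnion
      (fun p => (univ.filter (fun e => h e = FH 2 (N + 1) p.1 p.2)))).card ≤ L :=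
    (card_le_univ _).trans (by simp)
  have h3 : ∑ p ∈ (range (L + 1)).image (fun j => (i, j)), mult h N p.1 p.2 =
      ∑ j ∈ range (L + 1), mult h N i j := by
    rw [sum_image]
    intro a _ b _ hab
    exact (Prod.mk.inj hab).2
  have h4 : ∑ j ∈ range (L + 1), 1 ≤ ∑ j ∈ range (L + 1), mult h N i j :=
    sum_le_sum (fun j _ => Nat.one_le_iff_ne_zero.2 (hc j))
  simp at h4
  omega

/-- the real point of a triple. -/
def rp (x : Fin 3 → ℕ) : Fin 2 → ℝ := ![(x 0 : ℝ), (x 1 : ℝ)]

/-- the trace of a line on the grid. -/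
def tr (N : ℕ) (S : Set (Fin 2 → ℝ)) (x : Fin 3 → ℕ) : Prop := x 0 + x 1 + x 2 = N ∧ rp x ∈ S

lemma tr_gen {S : Set (Fin 2 → ℝ)} (hS : IsHyperplane S)
    (hne : ∀ i j, S ≠ FH 2 (N + 1) i j) : Gen N (tr N S) := by
  obtain ⟨a, b, ha, hSeq⟩ := hS
  have hmem : ∀ x, tr N S x → a 0 * x 0 + a 1 * x 1 = b := by
    intro x hx
    have := hx.2
    rw [hSeq] at this
    simp only [Set.mem_ofPred_eq, Fin.sum_univ_two, rp] at this
    simpa using this
  have hSeq' : ∀ y : Fin 2 → ℝ, y ∈ S ↔ a 0 * y 0 + a 1 * y 1 = b := by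
    intro y
    rw [hSeq]
    simp only [Set.mem_ofPred_eq, Fin.sum_univ_two]
  have ha' : a 0 ≠ 0 ∨ a 1 ≠ 0 := by
    by_contra hc
    push Not at hc
    apply ha
    funext i
    fin_cases i
    · exact hc.1
    · exact hc.2
  have ext3 : ∀ x y : Fin 3 → ℕ, tr N S x → tr N S y → x 0 = y 0 → x 1 = y 1 → x = y := by
    intro x y hx hy h0 h1
    funext i
    have h2 : x 2 = y 2 := by have := hx.1; have := hy.1; omega
    fin_cases i
    · exact h0
    · exact h1
    · exact h2
  have hinj : ∀ x y, tr N S x → tr N S y → ∀ i, x i = y i → x = y := by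
    intro x y hx hy i hi
    by_contra hxy
    have ex := hmem x hx
    have ey := hmem y hy
    have sx := hx.1
    have sy := hy.1
    fin_cases i
    · simp only [Fin.zero_eta] at hi
      have h1 : x 1 ≠ y 1 := fun h1 => hxy (ext3 x y hx hy hi h1)
      have h1' : (x 1 : ℝ) - y 1 ≠ 0 := by
        intro h'
        apply h1
        have : (x 1 : ℝ) = y 1 := by linarith
        exact_mod_cast this
      have h2 : a 1 * ((x 1 : ℝ) - y 1) = 0 := by rw [hi] at ex; linarith
      have h3 : a 1 = 0 := (mul_eq_zero.1 h2).resolve_right h1'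
      have h4 : a 0 ≠ 0 := by rcases ha' with h | h; exact h; exact absurd h3 h
      apply hne 0 (x 0)
      ext z
      rw [hSeq' z]
      show _ ↔ bc (N + 1) z (0 : Fin 3) = _
      rw [show bc (N + 1) z (0 : Fin 3) = z 0 from bc_castSucc _ z 0]
      rw [h3] at ex ⊢
      constructor
      · intro hz
        have : a 0 * (z 0 - x 0) = 0 := by linarith
        have := (mul_eq_zero.1 this).resolve_left h4
        linarith
      · intro hz; rw [hz]; linarith
    · simp only [Fin.mk_one] at hi
      have h1 : x 0 ≠ y 0 := fun h1 => hxy (ext3 x y hx hy h1 hi)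
      have h1' : (x 0 : ℝ) - y 0 ≠ 0 := by
        intro h'
        apply h1
        have : (x 0 : ℝ) = y 0 := by linarith
        exact_mod_cast this
      have h2 : a 0 * ((x 0 : ℝ) - y 0) = 0 := by rw [hi] at ex; linarith
      have h3 : a 0 = 0 := (mul_eq_zero.1 h2).resolve_right h1'
      have h4 : a 1 ≠ 0 := by rcases ha' with h | h; exact absurd h3 h; exact h
      apply hne 1 (x 1)
      ext z
      rw [hSeq' z]
      show _ ↔ bc (N + 1) z (1 : Fin 3) = _
      rw [show bc (N + 1) z (1 : Fin 3) = z 1 from bc_castSucc _ z 1]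
      rw [h3] at ex ⊢
      constructor
      · intro hz
        have : a 1 * (z 1 - x 1) = 0 := by linarith
        have := (mul_eq_zero.1 this).resolve_left h4
        linarith
      · intro hz; rw [hz]; linarith
    · simp only [Fin.reduceFinMk] at hi
      have h0 : x 0 ≠ y 0 := fun h1 => hxy (ext3 x y hx hy h1 (by omega))
      have h0' : (x 0 : ℝ) - y 0 ≠ 0 := by
        intro h'
        apply h0
        have : (x 0 : ℝ) = y 0 := by linarith
        exact_mod_cast this
      have hsum : x 0 + x 1 = y 0 + y 1 := by omega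
      have hsum' : (x 0 : ℝ) + x 1 = y 0 + y 1 := by exact_mod_cast hsum
      have h2 : (a 0 - a 1) * ((x 0 : ℝ) - y 0) = 0 := by
        have : (x 1 : ℝ) - y 1 = -((x 0 : ℝ) - y 0) := by linarith
        linear_combination ex - ey - a 1 * this
      have h3 : a 0 = a 1 := by
        have := (mul_eq_zero.1 h2).resolve_right h0'
        linarith
      have h4 : a 1 ≠ 0 := by rcases ha' with h | h; rw [← h3]; exact h; exact h
      apply hne 2 (x 2)
      ext z
      rw [hSeq' z]
      show _ ↔ bc (N + 1) z (2 : Fin 3) = _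
      rw [show bc (N + 1) z (2 : Fin 3) = ((N + 1 : ℕ) : ℝ) - 1 - (z 0 + z 1) from by
        have := bc_last (N + 1) z
        rw [Fin.sum_univ_two] at this
        exact this]
      have sx' : (x 0 : ℝ) + x 1 + x 2 = N := by exact_mod_cast sx
      rw [h3] at ex ⊢
      push_cast
      constructor
      · intro hz
        have : a 1 * (z 0 + z 1 - (x 0 + x 1)) = 0 := by linarith
        have := (mul_eq_zero.1 this).resolve_left h4
        linarith
      · intro hz
        have : z 0 + z 1 = x 0 + x 1 := by linarith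
        have h5 : a 1 * z 0 + a 1 * z 1 = a 1 * (z 0 + z 1) := by ring
        rw [h5, this]; linarith
  refine ⟨fun x hx => hx.1, hinj, ?_⟩
  -- comonotone pair
  have hdiff : ∀ x y, tr N S x → tr N S y →
      a 0 * ((y 0 : ℝ) - x 0) + a 1 * ((y 1 : ℝ) - x 1) = 0 := by
    intro x y hx hy
    have := hmem x hx
    have := hmem y hy
    linarith
  have hdiff2 : ∀ x y, tr N S x → tr N S y →
      ((y 0 : ℝ) - x 0) + ((y 1 : ℝ) - x 1) + ((y 2 : ℝ) - x 2) = 0 := by
    intro x y hx hy
    have h1 : (x 0 : ℝ) + x 1 + x 2 = N := by exact_mod_cast hx.1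
    have h2 : (y 0 : ℝ) + y 1 + y 2 = N := by exact_mod_cast hy.1
    linarith
  rcases lt_trichotomy (a 0 * a 1) 0 with hlt | heq | hgt
  · refine ⟨0, 1, by decide, ?_⟩
    intro x y hx hy hxy
    have h1 := hdiff x y hx hy
    have h3 : (0 : ℝ) < (y 0 : ℝ) - x 0 := by
      have : (x 0 : ℝ) < y 0 := by exact_mod_cast hxy
      linarith
    have h4 : (x 1 : ℝ) < y 1 := by
      by_contra hc
      push Not at hc
      have h5 : a 0 * a 1 * ((y 0 : ℝ) - x 0) + a 1 * a 1 * ((y 1 : ℝ) - x 1) = 0 := by
        linear_combination a 1 * h1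
      have h6 : a 0 * a 1 * ((y 0 : ℝ) - x 0) < 0 := mul_neg_of_neg_of_pos hlt h3
      have h7 : a 1 * a 1 * ((y 1 : ℝ) - x 1) ≤ 0 :=
        mul_nonpos_of_nonneg_of_nonpos (mul_self_nonneg _) (by linarith)
      linarith
    exact_mod_cast h4
  · refine ⟨0, 1, by decide, ?_⟩
    intro x y hx hy hxy
    exfalso
    have h1 := hdiff x y hx hy
    rcases mul_eq_zero.1 heq with h0 | h0
    · have h2 : a 1 ≠ 0 := by rcases ha' with h | h; exact absurd h0 h; exact h
      rw [h0] at h1
      have h3 : a 1 * ((y 1 : ℝ) - x 1) = 0 := by linarith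
      have h4 := (mul_eq_zero.1 h3).resolve_left h2
      have h5 : (x 1 : ℝ) = y 1 := by linarith
      have h6 : x 1 = y 1 := by exact_mod_cast h5
      have h7 := hinj x y hx hy 1 h6
      rw [h7] at hxy
      exact lt_irrefl _ hxy
    · have h2 : a 0 ≠ 0 := by rcases ha' with h | h; exact h; exact absurd h0 h
      rw [h0] at h1
      have h3 : a 0 * ((y 0 : ℝ) - x 0) = 0 := by linarith
      have h4 := (mul_eq_zero.1 h3).resolve_left h2
      have h5 : (x 0 : ℝ) = y 0 := by linarith
      have h6 : x 0 = y 0 := by exact_mod_cast h5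
      rw [h6] at hxy
      exact lt_irrefl _ hxy
  · rcases lt_trichotomy ((a 0 - a 1) * a 1) 0 with hl | he | hg
    · refine ⟨1, 2, by decide, ?_⟩
      intro x y hx hy hxy
      have h1 := hdiff x y hx hy
      have h2 := hdiff2 x y hx hy
      have h3 : (0 : ℝ) < (y 1 : ℝ) - x 1 := by
        have : (x 1 : ℝ) < y 1 := by exact_mod_cast hxy
        linarith
      have h8 : 0 < (a 1 - a 0) * a 0 := by
        have ha1 : a 1 ≠ 0 := by
          intro h0; rw [h0] at hgt; simp at hgt
        have e1 : 0 < (a 1 - a 0) * a 1 := by linarith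
        have e2 : 0 < ((a 1 - a 0) * a 1) * (a 0 * a 1) := mul_pos e1 hgt
        have e3 : 0 < a 1 * a 1 := mul_self_pos.2 ha1
        have e4 : ((a 1 - a 0) * a 1) * (a 0 * a 1) = ((a 1 - a 0) * a 0) * (a 1 * a 1) := by ring
        rw [e4] at e2
        exact (mul_pos_iff_of_pos_right e3).1 e2
      have h4 : (x 2 : ℝ) < y 2 := by
        by_contra hc
        push Not at hc
        have h5 : (a 1 - a 0) * a 0 * ((y 1 : ℝ) - x 1) = a 0 * a 0 * ((y 2 : ℝ) - x 2) := by
          linear_combination a 0 * h1 - a 0 * a 0 * h2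
        have h6 : 0 < (a 1 - a 0) * a 0 * ((y 1 : ℝ) - x 1) := mul_pos h8 h3
        have h7 : a 0 * a 0 * ((y 2 : ℝ) - x 2) ≤ 0 :=
          mul_nonpos_of_nonneg_of_nonpos (mul_self_nonneg _) (by linarith)
        linarith
      exact_mod_cast h4
    · refine ⟨0, 1, by decide, ?_⟩
      intro x y hx hy hxy
      exfalso
      have h1 := hdiff x y hx hy
      have h2 := hdiff2 x y hx hy
      have ha1 : a 1 ≠ 0 := by
        intro h0; rw [h0] at hgt; simp at hgt
      have h3 : a 0 = a 1 := by
        have := (mul_eq_zero.1 he).resolve_right ha1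
        linarith
      rw [h3] at h1
      have h4 : a 1 * (((y 0 : ℝ) - x 0) + ((y 1 : ℝ) - x 1)) = 0 := by linarith
      have h5 := (mul_eq_zero.1 h4).resolve_left ha1
      have h6 : (x 2 : ℝ) = y 2 := by linarith
      have h7 : x 2 = y 2 := by exact_mod_cast h6
      have h8 := hinj x y hx hy 2 h7
      rw [h8] at hxy
      exact lt_irrefl _ hxy
    · refine ⟨0, 2, by decide, ?_⟩
      intro x y hx hy hxy
      have h1 := hdiff x y hx hy
      have h2 := hdiff2 x y hx hy
      have h3 : (0 : ℝ) < (y 0 : ℝ) - x 0 := by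
        have : (x 0 : ℝ) < y 0 := by exact_mod_cast hxy
        linarith
      have h4 : (x 2 : ℝ) < y 2 := by
        by_contra hc
        push Not at hc
        have h5 : (a 0 - a 1) * a 1 * ((y 0 : ℝ) - x 0) = a 1 * a 1 * ((y 2 : ℝ) - x 2) := by
          linear_combination a 1 * h1 - a 1 * a 1 * h2
        have h6 : 0 < (a 0 - a 1) * a 1 * ((y 0 : ℝ) - x 0) := mul_pos hg h3
        have h7 : a 1 * a 1 * ((y 2 : ℝ) - x 2) ≤ 0 :=
          mul_nonpos_of_nonneg_of_nonpos (mul_self_nonneg _) (by linarith)
        linarith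
      exact_mod_cast h4

/-- Lower bound for plane covers from a weight system. -/
theorem plane_bound {K : ℕ} {H : Multiset (Set (Fin 2 → ℝ))} (hH : IsCover 2 (N + 1) (K + 1) H)
    {c : ℕ → ℝ} (hc : ∀ a, 0 ≤ c a)
    (hA : ∀ a, a ≤ K → ((K : ℝ) + 1 - a) * c a + 2 * PS c (K + 1 - a) ≤ 1)
    (hB1 : 2 * PS c (K + 1) ≤ 1)
    (hB : ∀ u v, u + v ≤ K + 2 → PS c u + PS c v + PS c (K + 1) ≤ 1) :
    3 * ((N : ℝ) + 1) * ∑ a ∈ range (K + 1), ((K : ℝ) + 1 - a) * c a ≤
      (Multiset.card H : ℝ) := by
  classical
  obtain ⟨L, h, hL, hh⟩ := exists_family H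
  rw [← hL]
  set R : Finset (Fin L) := univ.filter (fun e => ∀ i j, h e ≠ FH 2 (N + 1) i j) with hR
  have hhyp : ∀ e, IsHyperplane (h e) := by
    intro e
    apply hH.1
    rw [hh]
    exact Multiset.mem_map.2 ⟨e, mem_univ e, rfl⟩
  have main := abs_bound (N := N) (K := K) (m := mult h N) (fun i => mult_zero h i) hc R
    (fun e => tr N (h e)) ?_ ?_ hA hB1 hB
  · refine main.trans ?_
    have h1 : ∑ i, ∑ j ∈ range (N + 1), mult h N i j =
        ∑ p ∈ (univ : Finset (Fin 3)) ×ˢ range (N + 1), mult h N p.1 p.2 := by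
      rw [sum_product]
    rw [h1, sum_mult_le]
    have h2 : (((univ : Finset (Fin 3)) ×ˢ range (N + 1)).biUnion
        (fun p => (univ.filter (fun e => h e = FH 2 (N + 1) p.1 p.2)))).card + R.card ≤ L := by
      rw [← card_union_of_disjoint]
      · exact (card_le_univ _).trans (by simp)
      · rw [disjoint_left]
        intro e he he'
        rw [mem_biUnion] at he
        obtain ⟨p, _, he⟩ := he
        rw [mem_filter] at he he'
        exact he'.2 p.1 p.2 he.2
    exact_mod_cast h2
  · intro e he
    rw [hR, mem_filter] at he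
    exact tr_gen (hhyp e) he.2
  · intro x hx
    refine ⟨R.filter (fun e => tr N (h e) x), filter_subset _ _,
      fun e he => (mem_filter.1 he).2, ?_⟩
    have hgrid : rp x ∈ Grid 2 (N + 1) := by
      refine ⟨![x 0, x 1], ?_, ?_⟩
      · intro i
        fin_cases i <;> simp [rp]
      · rw [Fin.sum_univ_two]
        simp
        omega
    have hcov := hH.2 (rp x) hgrid
    have hcard : Multiset.card (H.filter (fun S => rp x ∈ S)) =
        (univ.filter (fun e : Fin L => rp x ∈ h e)).card := by
      conv_lhs => rw [hh]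
      rw [Multiset.filter_map, Multiset.card_map]
      rfl
    have hsub : univ.filter (fun e : Fin L => rp x ∈ h e) ⊆
        (R.filter (fun e => tr N (h e) x)) ∪
        ((univ.filter (fun e => h e = FH 2 (N + 1) 0 (x 0))) ∪
        ((univ.filter (fun e => h e = FH 2 (N + 1) 1 (x 1))) ∪
        (univ.filter (fun e => h e = FH 2 (N + 1) 2 (x 2))))) := by
      intro e he
      rw [mem_filter] at he
      rw [mem_union, mem_union, mem_union]
      by_cases hg : ∀ i j, h e ≠ FH 2 (N + 1) i j
      · left
        rw [mem_filter, hR, mem_filter]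
        exact ⟨⟨mem_univ _, hg⟩, hx, he.2⟩
      · right
        push Not at hg
        obtain ⟨i, j, hij⟩ := hg
        have hb : bc (N + 1) (rp x) i = (j : ℝ) := by
          have := he.2
          rw [hij] at this
          exact this
        rw [mem_filter, mem_filter, mem_filter]
        fin_cases i
        · left
          refine ⟨mem_univ _, ?_⟩
          have : bc (N + 1) (rp x) (0 : Fin 3) = (x 0 : ℝ) := bc_castSucc _ _ 0
          simp only [Fin.zero_eta] at hb hij
          rw [this] at hb
          have : x 0 = j := by exact_mod_cast hb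
          rw [hij, this]
        · right; left
          refine ⟨mem_univ _, ?_⟩
          have : bc (N + 1) (rp x) (1 : Fin 3) = (x 1 : ℝ) := bc_castSucc _ _ 1
          simp only [Fin.mk_one] at hb hij
          rw [this] at hb
          have : x 1 = j := by exact_mod_cast hb
          rw [hij, this]
        · right; right
          refine ⟨mem_univ _, ?_⟩
          have : bc (N + 1) (rp x) (2 : Fin 3) = (x 2 : ℝ) := by
            have h1 := bc_last (N + 1) (rp x)
            rw [Fin.sum_univ_two] at h1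
            have h2 : (x 0 : ℝ) + x 1 + x 2 = N := by exact_mod_cast hx
            have h3 : rp x 0 = (x 0 : ℝ) := rfl
            have h4 : rp x 1 = (x 1 : ℝ) := rfl
            rw [h3, h4] at h1
            push_cast at h1
            exact h1.trans (by linarith)
          simp only [Fin.reduceFinMk] at hb hij
          rw [this] at hb
          have : x 2 = j := by exact_mod_cast hb
          rw [hij, this]
    have hle := card_le_card hsub
    have hle2 : (univ.filter (fun e : Fin L => rp x ∈ h e)).card ≤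
        (R.filter (fun e => tr N (h e) x)).card + (mult h N 0 (x 0) + (mult h N 1 (x 1) +
          mult h N 2 (x 2))) := by
      refine hle.trans ((card_union_le _ _).trans (Nat.add_le_add_left ?_ _))
      refine (card_union_le _ _).trans ?_
      unfold mult
      refine Nat.add_le_add (le_of_eq (by congr)) ((card_union_le _ _).trans ?_)
      exact Nat.add_le_add (le_of_eq (by congr)) (le_of_eq (by congr))
    rw [hcard] at hcov
    unfold ms
    omega

end

end Pool.Agent.Helper53.TG
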