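import Pool.Agent.Helper53.TG.Defs

/-!
# Facet-parallel hyperplanes and the upper bound, every dimension
-/

namespace Pool.Agent.Helper53.TG

open Finset

/-- barycentric coordinates of a point: its `d` coordinates, followed by `n - 1 - ∑ x i`. -/
noncomputable def bc {d : ℕ} (n : ℕ) (x : Fin d → ℝ) : Fin (d + 1) → ℝ :=
  Fin.snoc (α := fun _ => ℝ) x ((n : ℝ) - 1 - ∑ i, x i)

/-- facet-parallel hyperplane. -/
def FH (d n : ℕ) (i : Fin (d + 1)) (j : ℕ) : Set (Fin d → ℝ) := {x | bc n x i = (j : ℝ)}

lemma bc_castSucc {d : ℕ} (n : ℕ) (x : Fin d → ℝ) (i : Fin d) : bc n x i.castSucc = x i := by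
  unfold bc; rw [Fin.snoc_castSucc]

lemma bc_last {d : ℕ} (n : ℕ) (x : Fin d → ℝ) : bc n x (Fin.last d) = (n : ℝ) - 1 - ∑ i, x i := by
  unfold bc; rw [Fin.snoc_last]

lemma FH_hyp {d : ℕ} (hd : 1 ≤ d) (n : ℕ) (i : Fin (d + 1)) (j : ℕ) : IsHyperplane (FH d n i j) := by
  classical
  refine Fin.lastCases ?_ ?_ i
  · refine ⟨fun _ => 1, (n : ℝ) - 1 - j, ?_, ?_⟩
    · intro h
      have := congrFun h (⟨0, by omega⟩ : Fin d)
      simp at this
    · ext x
      simp only [FH, Set.mem_ofPred_eq, bc_last, one_mul]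
      constructor
      · intro h; linarith
      · intro h; linarith
  · intro i
    refine ⟨Pi.single i 1, (j : ℝ), ?_, ?_⟩
    · intro h
      have := congrFun h i
      simp at this
    · ext x
      simp only [FH, Set.mem_ofPred_eq, bc_castSucc]
      have : ∑ l, (Pi.single i (1 : ℝ) : Fin d → ℝ) l * x l = x i := by
        rw [sum_eq_single i]
        · simp
        · intro b _ hb
          simp [hb]
        · intro h; exact absurd (mem_univ i) h
      rw [this]

/-- natural barycentric coordinates of a grid point. -/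
lemma grid_nat {d n : ℕ} {x : Fin d → ℝ} (hx : x ∈ Grid d n) :
    ∃ X : Fin (d + 1) → ℕ, (∀ i, bc n x i = (X i : ℝ)) ∧ ∑ i, X i + 1 = n := by
  obtain ⟨z, hz, hs⟩ := hx
  refine ⟨Fin.snoc (α := fun _ => ℕ) z (n - 1 - ∑ i, z i), ?_, ?_⟩
  · intro i
    refine Fin.lastCases ?_ ?_ i
    · rw [bc_last, Fin.snoc_last]
      rw [Nat.cast_sub (by omega), Nat.cast_sub (by omega)]
      push_cast
      simp_rw [hz]
    · intro i
      rw [bc_castSucc, Fin.snoc_castSucc, hz]
  · rw [Fin.sum_univ_castSucc]
    simp only [Fin.snoc_castSucc, Fin.snoc_last]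
    omega

/-- thresholds. -/
noncomputable def cap (n Q e : ℕ) : ℕ := ⌈(n * e : ℝ) / Q⌉₊

lemma lt_cap (n Q e : ℕ) (hQ : 1 ≤ Q) (X : ℕ) : X < cap n Q e ↔ X * Q < n * e := by
  unfold cap
  have hQ' : (0 : ℝ) < Q := by exact_mod_cast hQ
  rw [Nat.lt_ceil, lt_div_iff₀ hQ']
  norm_cast

lemma cap_le (n Q e : ℕ) : (cap n Q e : ℝ) ≤ (n * e : ℝ) / Q + 1 := by
  unfold cap
  exact (Nat.ceil_lt_add_one (by positivity)).le

/-- the multiset. -/
noncomputable def cov (d n Q J : ℕ) : Multiset (Set (Fin d → ℝ)) :=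
  ∑ e ∈ range J, ∑ i : Fin (d + 1), (range (cap n Q (e + 1))).val.map (FH d n i)

lemma card_cov (d n Q J : ℕ) :
    Multiset.card (cov d n Q J) = ∑ e ∈ range J, (d + 1) * cap n Q (e + 1) := by
  unfold cov
  rw [Multiset.card_sum]
  apply sum_congr rfl
  intro e _
  rw [Multiset.card_sum]
  simp

lemma count_few (n J Z : ℕ) (hn : 1 ≤ n) :
    n * ((range J).filter (fun e => n * (e + 1) ≤ Z)).card ≤ Z := by
  have hsub : (range J).filter (fun e => n * (e + 1) ≤ Z) ⊆ range (Z / n) := by
    intro e he
    rw [mem_filter] at he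
    rw [mem_range]
    have : e + 1 ≤ Z / n := by
      rw [Nat.le_div_iff_mul_le (by omega)]
      rw [mul_comm]; exact he.2
    omega
  have h1 := card_le_card hsub
  rw [card_range] at h1
  calc n * ((range J).filter (fun e => n * (e + 1) ≤ Z)).card ≤ n * (Z / n) :=
        Nat.mul_le_mul_left n h1
    _ ≤ Z := Nat.mul_div_le Z n

theorem cov_isCover {d n k J Q : ℕ} (hd : 1 ≤ d) (hn : 1 ≤ n) (hQ : 1 ≤ Q)
    (hQJ : Q + k = (d + 1) * J + 1) : IsCover d n k (cov d n Q J) := by
  classical
  constructor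
  · intro S hS
    unfold cov at hS
    rw [Multiset.mem_sum] at hS
    obtain ⟨e, _, hS⟩ := hS
    rw [Multiset.mem_sum] at hS
    obtain ⟨i, _, hS⟩ := hS
    rw [Multiset.mem_map] at hS
    obtain ⟨j, _, rfl⟩ := hS
    exact FH_hyp hd n i j
  · intro x hx
    obtain ⟨X, hX, hs⟩ := grid_nat hx
    have hfs : ∀ (s : Finset ℕ) (g : ℕ → Multiset (Set (Fin d → ℝ))) (p : Set (Fin d → ℝ) → Prop)
        [DecidablePred p], Multiset.card ((∑ e ∈ s, g e).filter p) =
          ∑ e ∈ s, Multiset.card ((g e).filter p) := by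
      intro s g p _
      induction s using Finset.induction_on with
      | empty => simp
      | insert a s ha ih => rw [sum_insert ha, sum_insert ha, Multiset.filter_add,
          Multiset.card_add, ih]
    have hfs2 : ∀ (s : Finset (Fin (d + 1))) (g : Fin (d + 1) → Multiset (Set (Fin d → ℝ)))
        (p : Set (Fin d → ℝ) → Prop)
        [DecidablePred p], Multiset.card ((∑ e ∈ s, g e).filter p) =
          ∑ e ∈ s, Multiset.card ((g e).filter p) := by
      intro s g p _
      induction s using Finset.induction_on with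
      | empty => simp
      | insert a s ha ih => rw [sum_insert ha, sum_insert ha, Multiset.filter_add,
          Multiset.card_add, ih]
    unfold cov
    rw [hfs]
    have hlow : ∀ e ∈ range J, ∑ i : Fin (d + 1), (if X i * Q < n * (e + 1) then 1 else 0) ≤
        Multiset.card ((∑ i : Fin (d + 1), (range (cap n Q (e + 1))).val.map (FH d n i)).filter
          (fun S => x ∈ S)) := by
      intro e _
      rw [hfs2]
      apply sum_le_sum
      intro i _
      split_ifs with h
      · rw [Nat.one_le_iff_ne_zero, Ne, Multiset.card_eq_zero]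
        intro h0
        have hmem : FH d n i (X i) ∈ ((range (cap n Q (e + 1))).val.map (FH d n i)).filter
            (fun S => x ∈ S) := by
          rw [Multiset.mem_filter]
          refine ⟨Multiset.mem_map.2 ⟨X i, ?_, rfl⟩, hX i⟩
          show X i ∈ range (cap n Q (e + 1))
          rw [mem_range]
          exact (lt_cap n Q (e + 1) hQ (X i)).2 h
        rw [h0] at hmem
        simp at hmem
      · exact Nat.zero_le _
    refine le_trans ?_ (sum_le_sum hlow)
    rw [sum_comm]
    have hci : ∀ i : Fin (d + 1), ∑ e ∈ range J, (if X i * Q < n * (e + 1) then 1 else 0) +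
        ((range J).filter (fun e => n * (e + 1) ≤ X i * Q)).card = J := by
      intro i
      rw [card_filter, ← sum_add_distrib]
      have : ∀ e ∈ range J, ((if X i * Q < n * (e + 1) then 1 else 0) +
          (if n * (e + 1) ≤ X i * Q then 1 else 0)) = 1 := by
        intro e _
        by_cases h : X i * Q < n * (e + 1)
        · rw [if_pos h, if_neg (by omega)]
        · rw [if_neg h, if_pos (by omega)]
      rw [sum_congr rfl this]
      simp
    have hsum : ∑ i : Fin (d + 1), (∑ e ∈ range J, (if X i * Q < n * (e + 1) then 1 else 0)) +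
        ∑ i : Fin (d + 1), ((range J).filter (fun e => n * (e + 1) ≤ X i * Q)).card =
        (d + 1) * J := by
      rw [← sum_add_distrib, sum_congr rfl (fun i _ => hci i)]
      simp
    have hfew : n * ∑ i : Fin (d + 1), ((range J).filter (fun e => n * (e + 1) ≤ X i * Q)).card ≤
        (n - 1) * Q := by
      rw [mul_sum]
      calc ∑ i : Fin (d + 1), n * ((range J).filter (fun e => n * (e + 1) ≤ X i * Q)).card
          ≤ ∑ i : Fin (d + 1), X i * Q := sum_le_sum (fun i _ => count_few n J _ hn)
        _ = (n - 1) * Q := by rw [← sum_mul]; congr 1; omega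
    set c := ∑ i : Fin (d + 1), ((range J).filter (fun e => n * (e + 1) ≤ X i * Q)).card with hc
    have hcQ : c < Q := by
      by_contra h
      push Not at h
      have h1 : n * Q ≤ n * c := Nat.mul_le_mul_left n h
      have h2 : (n - 1) * Q + Q = n * Q := by
        have : n = (n - 1) + 1 := by omega
        nth_rewrite 2 [this]
        ring
      omega
    omega

theorem upper {d n k J Q : ℕ} (hd : 1 ≤ d) (hn : 1 ≤ n) (hQ : 1 ≤ Q)
    (hQJ : Q + k = (d + 1) * J + 1) :
    (f n d k : ℝ) ≤ ((d : ℝ) + 1) * J * (J + 1) / (2 * Q) * n + ((d : ℝ) + 1) * J := by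
  have h1 : f n d k ≤ Multiset.card (cov d n Q J) :=
    Nat.sInf_le ⟨_, cov_isCover hd hn hQ hQJ, rfl⟩
  have h2 : (f n d k : ℝ) ≤ (Multiset.card (cov d n Q J) : ℝ) := by exact_mod_cast h1
  refine h2.trans ?_
  rw [card_cov]
  push_cast
  have hQ' : (0 : ℝ) < Q := by exact_mod_cast hQ
  have hg : ∀ M : ℕ, ∑ e ∈ range M, ((e : ℝ) + 1) = M * (M + 1) / 2 := by
    intro M
    induction M with
    | zero => simp
    | succ M ih => rw [sum_range_succ, ih]; push_cast; ring
  calc ∑ e ∈ range J, ((d : ℝ) + 1) * (cap n Q (e + 1) : ℝ)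
      ≤ ∑ e ∈ range J, ((d : ℝ) + 1) * ((n * ((e : ℝ) + 1)) / Q + 1) := by
        apply sum_le_sum
        intro e _
        apply mul_le_mul_of_nonneg_left _ (by positivity)
        have := cap_le n Q (e + 1)
        push_cast at this
        exact this
    _ = ((d : ℝ) + 1) * ((n : ℝ) / Q * ∑ e ∈ range J, ((e : ℝ) + 1) + J) := by
        rw [← mul_sum, sum_add_distrib, mul_sum]
        congr 2
        · apply sum_congr rfl
          intro e _
          ring
        · simp
    _ = _ := by
        rw [hg]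
        field_simp

lemma exists_cover {d n k : ℕ} (hd : 1 ≤ d) (hn : 1 ≤ n) :
    ∃ H : Multiset (Set (Fin d → ℝ)), IsCover d n k H ∧ Multiset.card H = f n d k := by
  have : ({m | ∃ H : Multiset (Set (Fin d → ℝ)), IsCover d n k H ∧
      Multiset.card H = m} : Set ℕ).Nonempty := by
    refine ⟨_, cov d n ((d + 1) * k + 1 - k) k, cov_isCover hd hn ?_ ?_, rfl⟩
    · have : k ≤ (d + 1) * k := Nat.le_mul_of_pos_left k (by omega)
      omega
    · have : k ≤ (d + 1) * k := Nat.le_mul_of_pos_left k (by omega)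
      omega
  exact Nat.sInf_mem this

end Pool.Agent.Helper53.TG
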